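import Mathlib

/-!
Factorisations of 0,1 polynomials into monic factors with nonnegative coefficients:
the mirror trick.
-/

set_option autoImplicit false

namespace Pool.Agent.P.MP_9bb6b5_al

open Polynomial Finset

theorem coeff_mul_ge {P Q : ℝ[X]} (hp : ∀ i, 0 ≤ P.coeff i) (hq : ∀ i, 0 ≤ Q.coeff i) (i j : ℕ) :
    P.coeff i * Q.coeff j ≤ (P * Q).coeff (i + j) := by
  rw [coeff_mul]
  exact single_le_sum (f := fun x : ℕ × ℕ => P.coeff x.1 * Q.coeff x.2)
    (fun x _ => mul_nonneg (hp _) (hq _)) (a := (i, j)) (by simp)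

theorem coeff_mul_ge_two {P Q : ℝ[X]} (hp : ∀ i, 0 ≤ P.coeff i) (hq : ∀ i, 0 ≤ Q.coeff i)
    {i j i' j' : ℕ} (h : i + j = i' + j') (hne : i ≠ i') :
    P.coeff i * Q.coeff j + P.coeff i' * Q.coeff j' ≤ (P * Q).coeff (i + j) := by
  rw [coeff_mul, ← sum_pair (f := fun x : ℕ × ℕ => P.coeff x.1 * Q.coeff x.2)
    (a := (i, j)) (b := (i', j')) (by simp [hne])]
  refine sum_le_sum_of_subset_of_nonneg ?_ fun x _ _ => mul_nonneg (hp _) (hq _)
  intro x hx
  simp only [mem_insert, mem_singleton] at hx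
  rcases hx with rfl | rfl <;> simp [h]

theorem coeff_le_one {P Q : ℝ[X]} (hQ : Q.Monic) (hp : ∀ i, 0 ≤ P.coeff i)
    (hq : ∀ i, 0 ≤ Q.coeff i) (hR : ∀ i, (P * Q).coeff i = 0 ∨ (P * Q).coeff i = 1) (i : ℕ) :
    P.coeff i ≤ 1 := by
  have := coeff_mul_ge hp hq i Q.natDegree
  rw [hQ.coeff_natDegree, mul_one] at this
  rcases hR (i + Q.natDegree) with h | h <;> linarith

theorem trailing_eq_one {P Q : ℝ[X]} (hP : P.Monic) (hQ : Q.Monic) (hp : ∀ i, 0 ≤ P.coeff i)
    (hq : ∀ i, 0 ≤ Q.coeff i) (hR : ∀ i, (P * Q).coeff i = 0 ∨ (P * Q).coeff i = 1) :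
    P.coeff P.natTrailingDegree = 1 := by
  have h1 := coeff_le_one hQ hp hq hR P.natTrailingDegree
  have h2 := coeff_le_one hP hq hp (by rwa [mul_comm]) Q.natTrailingDegree
  have h3 : P.trailingCoeff * Q.trailingCoeff = 1 := by
    rw [← trailingCoeff_mul]
    exact (hR _).resolve_left (trailingCoeff_nonzero_iff_nonzero.2
      (mul_ne_zero hP.ne_zero hQ.ne_zero))
  unfold trailingCoeff at h3
  nlinarith [hp P.natTrailingDegree, hq Q.natTrailingDegree]

/-- The classical induction: it suffices that the shifted supports only meet at the origin. -/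
theorem zero_one_of_disjoint {P Q : ℝ[X]} (hP : P.Monic) (hQ : Q.Monic) (hp : ∀ i, 0 ≤ P.coeff i)
    (hq : ∀ i, 0 ≤ Q.coeff i) (hR : ∀ i, (P * Q).coeff i = 0 ∨ (P * Q).coeff i = 1)
    (h : ∀ k, 0 < k →
      P.coeff (P.natTrailingDegree + k) * Q.coeff (Q.natTrailingDegree + k) = 0) :
    (∀ i, P.coeff i = 0 ∨ P.coeff i = 1) ∧ ∀ i, Q.coeff i = 0 ∨ Q.coeff i = 1 := by
  have hR' : ∀ i, (Q * P).coeff i = 0 ∨ (Q * P).coeff i = 1 := by rwa [mul_comm]
  have a0 := trailing_eq_one hP hQ hp hq hR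
  have b0 := trailing_eq_one hQ hP hq hp hR'
  set i0 := P.natTrailingDegree
  set j0 := Q.natTrailingDegree
  have lowP : ∀ i < i0, P.coeff i = 0 := fun i hi => coeff_eq_zero_of_lt_natTrailingDegree hi
  have lowQ : ∀ i < j0, Q.coeff i = 0 := fun i hi => coeff_eq_zero_of_lt_natTrailingDegree hi
  have int : ∀ x : ℝ, 0 ≤ x → x ≤ 1 → x ∈ (⊥ : Subring ℝ) → x = 0 ∨ x = 1 := by
    intro x h0 h1 hx
    obtain ⟨m, rfl⟩ := Subring.mem_bot.1 hx
    have k0 : 0 ≤ m := by exact_mod_cast h0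
    have k1 : m ≤ 1 := by exact_mod_cast h1
    interval_cases m <;> simp
  have mem : ∀ x : ℝ, x = 0 ∨ x = 1 → x ∈ (⊥ : Subring ℝ) := by
    rintro x (rfl | rfl)
    exacts [zero_mem _, one_mem _]
  have key : ∀ k, (P.coeff (i0 + k) = 0 ∨ P.coeff (i0 + k) = 1) ∧
      (Q.coeff (j0 + k) = 0 ∨ Q.coeff (j0 + k) = 1) := by
    intro k
    induction k using Nat.strong_induction_on with
    | _ k ih =>
    rcases k.eq_zero_or_pos with rfl | hk
    · exact ⟨Or.inr a0, Or.inr b0⟩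
    have h1 : P.coeff (i0 + k) + Q.coeff (j0 + k) ∈ (⊥ : Subring ℝ) := by
      have h2 := mem _ (hR (i0 + j0 + k))
      rw [coeff_mul, ← add_sum_erase _ _ (a := (i0 + k, j0)) (by simp; ring),
        ← add_sum_erase _ _ (a := (i0, j0 + k)) (by simp; omega), ← add_assoc] at h2
      simp only [a0, b0, mul_one, one_mul] at h2
      refine (add_mem_cancel_right (sum_mem fun x hx => ?_)).1 h2
      simp only [mem_erase, HasAntidiagonal.mem_antidiagonal, ne_eq, Prod.ext_iff] at hx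
      rcases lt_or_ge x.1 i0 with c | c
      · rw [lowP _ c, zero_mul]; exact zero_mem _
      rcases lt_or_ge x.2 j0 with d | d
      · rw [lowQ _ d, mul_zero]; exact zero_mem _
      obtain ⟨u, hu⟩ := Nat.exists_eq_add_of_le c
      obtain ⟨v, hv⟩ := Nat.exists_eq_add_of_le d
      rw [hu, hv]
      exact mul_mem (mem _ (ih u (by omega)).1) (mem _ (ih v (by omega)).2)
    rcases mul_eq_zero.1 (h k hk) with h3 | h3
    · rw [h3, zero_add] at h1
      exact ⟨Or.inl h3, int _ (hq _) (coeff_le_one hP hq hp hR' _) h1⟩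
    · rw [h3, add_zero] at h1
      exact ⟨int _ (hp _) (coeff_le_one hQ hp hq hR _) h1, Or.inl h3⟩
  constructor
  · intro i
    rcases lt_or_ge i i0 with c | c
    · exact Or.inl (lowP i c)
    · obtain ⟨u, rfl⟩ := Nat.exists_eq_add_of_le c
      exact (key u).1
  · intro i
    rcases lt_or_ge i j0 with c | c
    · exact Or.inl (lowQ i c)
    · obtain ⟨u, rfl⟩ := Nat.exists_eq_add_of_le c
      exact (key u).2

theorem sum_sq_mul_mirror {K : Type*} [CommRing K] [IsDomain K] {P Q : K[X]} (hP : P ≠ 0)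
    (hQ : Q ≠ 0) :
    ∑ d ∈ (P * Q.mirror).support, (P * Q.mirror).coeff d ^ 2 =
      ∑ d ∈ (P * Q).support, (P * Q).coeff d ^ 2 := by
  have hQ' : Q.mirror ≠ 0 := mirror_eq_zero.not.2 hQ
  have h1 := coeff_mul_mirror (P * Q.mirror)
  have h2 := coeff_mul_mirror (P * Q)
  rw [natDegree_mul hP hQ', natTrailingDegree_mul hP hQ', mirror_natDegree,
    mirror_natTrailingDegree, mirror_mul_of_domain, mirror_mirror] at h1
  rw [natDegree_mul hP hQ, natTrailingDegree_mul hP hQ, mirror_mul_of_domain] at h2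
  rw [show P * Q.mirror * (P.mirror * Q) = P * Q * (P.mirror * Q.mirror) by ring, h2] at h1
  exact h1.symm

theorem sum_mul_mirror {K : Type*} [CommRing K] (P Q : K[X]) :
    ∑ d ∈ (P * Q.mirror).support, (P * Q.mirror).coeff d =
      ∑ d ∈ (P * Q).support, (P * Q).coeff d := by
  have h : ∀ T : K[X], ∑ d ∈ T.support, T.coeff d = T.eval 1 := fun T => by
    simp [eval_eq_sum, Polynomial.sum]
  rw [h, h, eval_mul, eval_mul, mirror_eval_one]

/-- If `P * Q.mirror` has at most as many terms as `P * Q` then `P` and `Q` are 0,1 polynomials. -/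
theorem zero_one_of_card_le {P Q : ℝ[X]} (hP : P.Monic) (hQ : Q.Monic) (hp : ∀ i, 0 ≤ P.coeff i)
    (hq : ∀ i, 0 ≤ Q.coeff i) (hR : ∀ i, (P * Q).coeff i = 0 ∨ (P * Q).coeff i = 1)
    (h : (P * Q.mirror).support.card ≤ (P * Q).support.card) :
    (∀ i, P.coeff i = 0 ∨ P.coeff i = 1) ∧ ∀ i, Q.coeff i = 0 ∨ Q.coeff i = 1 := by
  have one : ∀ d ∈ (P * Q).support, (P * Q).coeff d = 1 := fun d hd =>
    (hR d).resolve_left (mem_support_iff.1 hd)
  have h1 := sum_sq_mul_mirror hP.ne_zero hQ.ne_zero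
  have h2 := sum_mul_mirror P Q
  rw [sum_congr (s₁ := (P * Q).support) rfl (g := fun _ => (1 : ℝ))
    fun d hd => by rw [one d hd, one_pow]] at h1
  rw [sum_congr rfl one] at h2
  simp only [sum_const, nsmul_eq_mul, mul_one] at h1 h2
  have h3 : ∑ d ∈ (P * Q.mirror).support, ((P * Q.mirror).coeff d - 1) ^ 2 ≤ 0 := by
    have : ((P * Q.mirror).support.card : ℝ) ≤ (P * Q).support.card := by exact_mod_cast h
    simp only [sub_sq, sum_add_distrib, sum_sub_distrib, mul_one, ← mul_sum, h1, h2, one_pow,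
      sum_const, nsmul_eq_mul]
    linarith
  have h4 : ∀ d, (P * Q.mirror).coeff d ≤ 1 := fun d => by
    by_cases hd : d ∈ (P * Q.mirror).support
    · have := (sum_eq_zero_iff_of_nonneg fun _ _ => sq_nonneg _).1
        (le_antisymm h3 (sum_nonneg fun _ _ => sq_nonneg _)) d hd
      linarith [sub_eq_zero.1 (pow_eq_zero_iff two_ne_zero |>.1 this)]
    · rw [notMem_support_iff.1 hd]; exact zero_le_one
  refine zero_one_of_disjoint hP hQ hp hq hR fun k hk => ?_
  rcases lt_or_ge Q.natDegree (Q.natTrailingDegree + k) with c | c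
  · rw [coeff_eq_zero_of_natDegree_lt c, mul_zero]
  have h5 := coeff_mul_ge_two hp (Q := Q.mirror) (fun i => by rw [coeff_mirror]; exact hq _)
    (i := P.natTrailingDegree + k) (j := Q.natDegree - k) (i' := P.natTrailingDegree)
    (j' := Q.natDegree) (by omega) (by omega)
  rw [coeff_mirror, coeff_mirror, revAt_le (by omega), revAt_le (by omega),
    show Q.natDegree + Q.natTrailingDegree - (Q.natDegree - k) = Q.natTrailingDegree + k by omega,
    add_tsub_cancel_left, trailing_eq_one hP hQ hp hq hR,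
    trailing_eq_one hQ hP hq hp (by rwa [mul_comm])] at h5
  exact le_antisymm (by linarith [h4 (P.natTrailingDegree + k + (Q.natDegree - k))])
    (mul_nonneg (hp _) (hq _))

theorem mirror_map {K L : Type*} [Semiring K] [Semiring L] {f : K →+* L}
    (hf : Function.Injective f) (Q : K[X]) : (Q.map f).mirror = Q.mirror.map f := by
  have h : (Q.map f).natTrailingDegree = Q.natTrailingDegree := by
    unfold natTrailingDegree trailingDegree
    rw [support_map_of_injective Q hf]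
  ext d
  rw [coeff_map, coeff_mirror, coeff_mirror, coeff_map, natDegree_map_eq_of_injective hf, h]

theorem isIntegral_coeff {P Q : ℝ[X]} (hP : P.Monic) (hQ : Q.Monic)
    (hR : ∀ i, (P * Q).coeff i = 0 ∨ (P * Q).coeff i = 1) (i : ℕ) : IsIntegral ℤ (P.coeff i) := by
  obtain ⟨R, h1, -, h2⟩ := lifts_and_natDegree_eq_and_monic (f := algebraMap ℤ ℝ) (p := P * Q)
    ((lifts_iff_coeff_lifts _).2 fun n => by
      rcases hR n with h | h <;> rw [h]
      exacts [⟨0, by simp⟩, ⟨1, by simp⟩]) (hP.mul hQ)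
  exact isIntegral_coeff_of_dvd R P h2 hP (h1 ▸ dvd_mul_right P Q) i

/-- The conjugates of a nonzero algebraic integer have product of modulus at least one. -/
theorem one_le_prod_norm {K : Type*} [Field K] [Algebra ℚ K] [FiniteDimensional ℚ K] {x : K}
    (hx : IsIntegral ℤ x) (h0 : x ≠ 0) : 1 ≤ ∏ σ : K →ₐ[ℚ] ℂ, ‖σ x‖ := by
  rw [← norm_prod, ← Algebra.norm_eq_prod_embeddings]
  obtain ⟨m, hm⟩ := IsIntegrallyClosed.isIntegral_iff.1 (Algebra.isIntegral_norm ℚ hx)
  have h1 : m ≠ 0 := by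
    rintro rfl
    exact h0 (by simpa using hm.symm)
  rw [← hm]
  simp only [eq_intCast, eq_ratCast, Rat.cast_intCast, Complex.norm_intCast]
  exact_mod_cast Int.one_le_abs h1

theorem card_le_sum_of_one_le_prod {ι : Type*} (s : Finset ι) {y : ι → ℝ} (h0 : ∀ i, 0 ≤ y i)
    (h : 1 ≤ ∏ i ∈ s, y i) : (s.card : ℝ) ≤ ∑ i ∈ s, y i := by
  have h1 : ∀ i ∈ s, y i ≠ 0 := prod_ne_zero_iff.1 (by linarith)
  have h2 := Real.log_nonneg h
  rw [Real.log_prod h1] at h2
  have h3 := sum_le_sum fun i hi =>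
    Real.log_le_sub_one_of_pos (lt_of_le_of_ne (h0 i) (h1 i hi).symm)
  simp only [sum_sub_distrib, sum_const, nsmul_eq_mul, mul_one] at h3
  linarith

/-- The factors are defined over a number field. -/
theorem exists_numberField {P Q : ℝ[X]} (hP : P.Monic) (hQ : Q.Monic)
    (hR : ∀ i, (P * Q).coeff i = 0 ∨ (P * Q).coeff i = 1) :
    ∃ (K : IntermediateField ℚ ℝ) (_ : FiniteDimensional ℚ K) (P' Q' : K[X]),
      P'.map (algebraMap K ℝ) = P ∧ Q'.map (algebraMap K ℝ) = Q ∧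
      (∀ i, IsIntegral ℤ (P'.coeff i)) ∧ ∀ i, IsIntegral ℤ (Q'.coeff i) := by
  have iP := isIntegral_coeff hP hQ hR
  have iQ := isIntegral_coeff hQ hP (by rwa [mul_comm])
  let K := IntermediateField.adjoin ℚ ((P.coeffs : Set ℝ) ∪ Q.coeffs)
  have lift : ∀ T : ℝ[X], (T.coeffs : Set ℝ) ⊆ (P.coeffs : Set ℝ) ∪ Q.coeffs →
      (∀ i, IsIntegral ℤ (T.coeff i)) →
      ∃ T' : K[X], T'.map (algebraMap K ℝ) = T ∧ ∀ i, IsIntegral ℤ (T'.coeff i) := by
    intro T h1 h2
    obtain ⟨T', hT⟩ := (mem_lifts _).1 ((lifts_iff_coeffs_subset_range (f := algebraMap K ℝ) T).2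
      fun x hx => ⟨⟨x, IntermediateField.subset_adjoin _ _ (h1 hx)⟩, rfl⟩)
    refine ⟨T', hT, fun i => ?_⟩
    rw [← isIntegral_algebraMap_iff (B := ℝ) (algebraMap K ℝ).injective, ← coeff_map, hT]
    exact h2 i
  obtain ⟨P', h1, h2⟩ := lift P Set.subset_union_left iP
  obtain ⟨Q', h3, h4⟩ := lift Q Set.subset_union_right iQ
  refine ⟨K, IntermediateField.finiteDimensional_adjoin fun x hx => ?_, P', Q', h1, h3, h2, h4⟩
  rcases hx with hx | hx
  · obtain ⟨i, -, rfl⟩ := mem_coeffs_iff.1 hx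
    exact (iP i).tower_top
  · obtain ⟨i, -, rfl⟩ := mem_coeffs_iff.1 hx
    exact (iQ i).tower_top

end Pool.Agent.P.MP_9bb6b5_al
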