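import Pool.Agent.P.MP_9bb6b5_al.Flip

/-!
Coefficient extraction from the flip identity for trinomials.
-/

set_option autoImplicit false

namespace Pool.Agent.P.MP_9bb6b5_al

open Polynomial

/-- The coefficient of a power series at an integer index. -/
noncomputable def co {K : Type*} [CommRing K] (T : PowerSeries K) (n : ℤ) : K :=
  if 0 ≤ n then PowerSeries.coeff n.toNat T else 0

section
variable {K : Type*} [CommRing K]

theorem co_neg (T : PowerSeries K) {n : ℤ} (h : n < 0) : co T n = 0 := if_neg h.not_ge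

theorem co_add (S T : PowerSeries K) (n : ℤ) : co (S + T) n = co S n + co T n := by
  unfold co; split_ifs <;> simp

theorem co_sub (S T : PowerSeries K) (n : ℤ) : co (S - T) n = co S n - co T n := by
  unfold co; split_ifs <;> simp

theorem co_C_mul (c : K) (T : PowerSeries K) (n : ℤ) :
    co (PowerSeries.C c * T) n = c * co T n := by
  unfold co; split_ifs <;> simp

theorem co_X_pow_mul (j : ℕ) (T : PowerSeries K) (n : ℤ) :
    co (PowerSeries.X ^ j * T) n = co T (n - j) := by
  unfold co
  rw [PowerSeries.coeff_X_pow_mul']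
  by_cases h : 0 ≤ n - j
  · rw [if_pos (by omega), if_pos (by omega), if_pos h]
    congr 2
    omega
  · rw [if_neg h]
    split_ifs with h1 h2
    · omega
    · rfl
    · rfl

variable {m : ℕ} {G : PowerSeries K}

theorem co_G (hG : (1 + PowerSeries.X ^ m) * G = 1) (T : PowerSeries K) (n : ℤ) :
    co (G * T) n = co T n - co (G * T) (n - m) := by
  rw [← co_X_pow_mul, ← co_sub]
  congr 1
  linear_combination T * hG

theorem co_G_pow (hG : (1 + PowerSeries.X ^ m) * G = 1) (T : PowerSeries K) (l : ℕ) {n : ℤ}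
    (h : n < m) : co (G ^ l * T) n = co T n := by
  induction l with
  | zero => simp
  | succ l ih => rw [pow_succ', mul_assoc, co_G hG, co_neg _ (by omega : n - m < 0), sub_zero, ih]

theorem co_G_pow' (hG : (1 + PowerSeries.X ^ m) * G = 1) (T : PowerSeries K) (l : ℕ) {n : ℤ}
    (h : n < 2 * m) : co (G ^ l * T) n = co T n - l * co T (n - m) := by
  induction l with
  | zero => simp
  | succ l ih =>
    rw [pow_succ', mul_assoc, co_G hG, ih, ← mul_assoc, ← pow_succ',
      co_G_pow hG _ _ (by omega : n - m < m)]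
    push_cast
    ring

end

variable {k k' : ℕ} {G : PowerSeries ℤ}

theorem row_aeval (hk : 0 < k) (hG : (1 + PowerSeries.X ^ (k + k')) * G = 1) {T : PowerSeries ℤ}
    {u : ℤ} (hu : u ≤ 0) (hT : ∀ w < u, co T (k * w + k') = 0) (p : ℤ[X]) :
    ∀ w < u, co (aeval (PowerSeries.X ^ k * G) p * T) (k * w + k') = 0 := by
  induction p using Polynomial.induction_on with
  | C c =>
    intro w hw
    rw [aeval_C, show algebraMap ℤ (PowerSeries ℤ) c = PowerSeries.C c by simp, co_C_mul, hT w hw,
      mul_zero]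
  | add p q hp hq =>
    intro w hw
    rw [map_add, add_mul, co_add, hp w hw, hq w hw, add_zero]
  | monomial n c ih =>
    intro w hw
    rw [pow_succ, ← mul_assoc, map_mul, aeval_X, mul_comm _ (_ * G), mul_assoc, mul_assoc,
      co_X_pow_mul, co_G hG, co_neg _ (n := _ - ((k + k' : ℕ) : ℤ)) (by push_cast; nlinarith),
      sub_zero, show (k : ℤ) * w + k' - k = k * (w - 1) + k' by ring]
    exact ih _ (by omega)

theorem row_zero (hk : 0 < k) (hG : (1 + PowerSeries.X ^ (k + k')) * G = 1)
    {S S' : PowerSeries ℤ} {f : ℤ[X]} (f0 : f.coeff 0 = 1)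
    (E : S' * aeval (PowerSeries.X ^ k * G) f = S * aeval (PowerSeries.X ^ k' * G) f)
    (hS : ∀ w < (0 : ℤ), co S (k * w + k') = 0) : ∀ w < (0 : ℤ), co S' (k * w + k') = 0 := by
  have key : ∀ j : ℕ, j ≤ k' + 1 → ∀ w < (j : ℤ) - (k' + 1), co S' (k * w + k') = 0 := by
    intro j
    induction j with
    | zero => exact fun _ w hw => co_neg _ (by push_cast at hw; nlinarith)
    | succ j ih =>
      intro hj w hw
      have h1 := row_aeval hk hG (by omega) (ih (by omega)) f.divX (w - 1) (by omega)
      rw [← X_mul_divX_add f, f0] at E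
      simp only [map_add, map_mul, aeval_X, map_one] at E
      have h2 := congrArg (co · (k * w + k')) (show S' + PowerSeries.X ^ k *
        (G * (aeval (PowerSeries.X ^ k * G) f.divX * S')) = S + PowerSeries.X ^ k' *
        (G * (aeval (PowerSeries.X ^ k' * G) f.divX * S)) by linear_combination E)
      have hw' : w < 0 := by omega
      simp only [co_add, co_X_pow_mul] at h2
      rw [co_G hG, co_neg _ (n := _ - ((k + k' : ℕ) : ℤ)) (by push_cast; nlinarith), hS w hw',
        co_neg _ (n := k * w + k' - k') (by nlinarith),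
        show (k : ℤ) * w + k' - k = k * (w - 1) + k' by ring, h1] at h2
      simpa using h2
  intro w hw
  exact key (k' + 1) le_rfl w (by push_cast; omega)

theorem exists_tail {g : ℤ[X]} (g0 : g.coeff 0 = 1) {J : ℕ} (hJ : 0 < J)
    (h : ∀ i, 0 < i → i < J → g.coeff i = 0) : ∃ t : ℤ[X],
      g = 1 + C (g.coeff J) * X ^ J + C (g.coeff (J + 1)) * X ^ (J + 1) + X ^ (J + 2) * t := by
  obtain ⟨t, ht⟩ : X ^ (J + 2) ∣
      g - (1 + C (g.coeff J) * X ^ J + C (g.coeff (J + 1)) * X ^ (J + 1)) := by
    refine X_pow_dvd_iff.2 fun d hd => ?_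
    simp only [coeff_sub, coeff_add, coeff_C_mul, coeff_X_pow, coeff_one]
    rcases d.eq_zero_or_pos with rfl | d0
    · simp [g0, hJ.ne]
    rcases lt_trichotomy d J with c | rfl | c
    · simp [h d d0 c, d0.ne', c.ne, show d ≠ J + 1 by omega]
    · simp [d0.ne']
    · obtain rfl : d = J + 1 := by omega
      simp
  exact ⟨t, by linear_combination ht⟩

theorem master (hk : 0 < k) (hkk : k < k') (hG : (1 + PowerSeries.X ^ (k + k')) * G = 1)
    {S S' : PowerSeries ℤ} {g : ℤ[X]} (g0 : g.coeff 0 = 1) {J : ℕ} (hJ : 0 < J)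
    (h : ∀ i, 0 < i → i < J → g.coeff i = 0)
    (E : S' * aeval (PowerSeries.X ^ k * G) g = S * aeval (PowerSeries.X ^ k' * G) g)
    (hS : ∀ w < (0 : ℤ), co S' (k * w + k') = 0) {u v : ℤ} (hu : u ≤ J + 1) (hv : v ≤ 1) :
    co S' (k * u + k' * v) + g.coeff J * co (G ^ J * S') (k * (u - J) + k' * v) +
        g.coeff (J + 1) * co (G ^ (J + 1) * S') (k * (u - J - 1) + k' * v) =
      co S (k * u + k' * v) + g.coeff J * co (G ^ J * S) (k * u + k' * (v - J)) +
        g.coeff (J + 1) * co (G ^ (J + 1) * S) (k * u + k' * (v - J - 1)) := by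
  obtain ⟨t, ht⟩ := exists_tail g0 hJ h
  generalize g.coeff J = e at *
  generalize g.coeff (J + 1) = e' at *
  rw [ht] at E
  simp only [map_add, map_mul, map_pow, aeval_X, map_one, aeval_C, mul_pow, ← pow_mul,
    show ∀ c, algebraMap ℤ (PowerSeries ℤ) c = PowerSeries.C c from fun c => by simp] at E
  have h2 := congrArg (co · (k * u + k' * v)) (show
    S' + PowerSeries.C e * (PowerSeries.X ^ (k * J) * (G ^ J * S')) +
      PowerSeries.C e' * (PowerSeries.X ^ (k * (J + 1)) * (G ^ (J + 1) * S')) +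
      PowerSeries.X ^ (k * (J + 2)) * (G ^ (J + 2) * (aeval (PowerSeries.X ^ k * G) t * S')) =
    S + PowerSeries.C e * (PowerSeries.X ^ (k' * J) * (G ^ J * S)) +
      PowerSeries.C e' * (PowerSeries.X ^ (k' * (J + 1)) * (G ^ (J + 1) * S)) +
      PowerSeries.X ^ (k' * (J + 2)) * (G ^ (J + 2) * (aeval (PowerSeries.X ^ k' * G) t * S))
    by linear_combination E)
  simp only [co_add, co_C_mul, co_X_pow_mul] at h2
  push_cast at h2
  have k0 : (0 : ℤ) < k := by exact_mod_cast hk
  have k1 : (k : ℤ) < k' := by exact_mod_cast hkk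
  have z1 : co (G ^ (J + 2) * (aeval (PowerSeries.X ^ k * G) t * S'))
      (k * u + k' * v - k * (J + 2)) = 0 := by
    rcases hv.lt_or_eq with c | rfl
    · exact co_neg _ (by nlinarith)
    · rw [co_G_pow hG _ _ (by push_cast; nlinarith),
        show (k : ℤ) * u + k' * 1 - k * (J + 2) = k * (u - J - 2) + k' by ring]
      exact row_aeval hk hG le_rfl hS t _ (by omega)
  rw [z1, co_neg _ (n := k * u + k' * v - k' * (J + 2)) (by nlinarith),
    show (k : ℤ) * u + k' * v - k * J = k * (u - J) + k' * v by ring,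
    show (k : ℤ) * u + k' * v - k * (J + 1) = k * (u - J - 1) + k' * v by ring,
    show (k : ℤ) * u + k' * v - k' * J = k * u + k' * (v - J) by ring,
    show (k : ℤ) * u + k' * v - k' * (J + 1) = k * u + k' * (v - J - 1) by ring] at h2
  linear_combination h2

end Pool.Agent.P.MP_9bb6b5_al
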