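import Pool.Agent.P.MP_9bb6b5_al.Cells

/-!
The combinatorics at the bottom corner of a trinomial factorisation.
-/

set_option autoImplicit false

namespace Pool.Agent.P.MP_9bb6b5_al

open Polynomial

/-- The six equations read off from the flip identity. -/
structure Eqs (J e e' : ℤ) (s s' : ℤ → ℤ → ℤ) : Prop where
  e0 : ∀ u v, u < J → v ≤ 1 → s' u v = s u v
  e1 : ∀ v < 0, s' J v = s J v
  e2 : s' J 0 + e * s' 0 0 = s J 0
  e3 : s' J 1 + e * s' 0 1 = s J 1 + e * s J (1 - J)
  e4 : s' (J + 1) 0 + e * s' 1 0 + e' * s' 0 0 = s (J + 1) 0 + e * s (J + 1) (-J)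
  e5 : s' (J + 1) 1 + e * (s' 1 1 - J * s' 0 0) + e' * s' 0 1 =
    s (J + 1) 1 + e * s (J + 1) (1 - J) + e' * s (J + 1) (-J)

theorem eqs {k k' : ℕ} {G : PowerSeries ℤ} (hk : 0 < k) (hkk : k < k')
    (hG : (1 + PowerSeries.X ^ (k + k')) * G = 1)
    {S S' : PowerSeries ℤ} {g : ℤ[X]} (g0 : g.coeff 0 = 1) {J : ℕ} (hJ : 2 ≤ J)
    (h : ∀ i, 0 < i → i < J → g.coeff i = 0)
    (E : S' * aeval (PowerSeries.X ^ k * G) g = S * aeval (PowerSeries.X ^ k' * G) g)
    (hS : ∀ w < (0 : ℤ), co S' (k * w + k') = 0) :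
    Eqs J (g.coeff J) (g.coeff (J + 1)) (fun u v => co S (k * u + k' * v))
      fun u v => co S' (k * u + k' * v) := by
  have M := fun u v => master hk hkk hG g0 (by omega) h E hS (u := u) (v := v)
  have k0 : (0 : ℤ) < k := by exact_mod_cast hk
  have k1 : (k : ℤ) < k' := by exact_mod_cast hkk
  have J2 : (2 : ℤ) ≤ J := by exact_mod_cast hJ
  have lo : ∀ (T : PowerSeries ℤ) (l : ℕ) (u v : ℤ), k * (u - 1) + k' * (v - 1) < 0 →
      co (G ^ l * T) (k * u + k' * v) = co T (k * u + k' * v) := fun T l u v c =>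
    co_G_pow hG _ _ (by push_cast; linarith)
  have n1 : ∀ (T : PowerSeries ℤ) (u v : ℤ), v < 0 → u ≤ -v → co T (k * u + k' * v) = 0 :=
    fun T u v c d => co_neg _ (by nlinarith)
  have n2 : ∀ (l : ℕ) (u v : ℤ), u < 0 → v ≤ 1 → co (G ^ l * S') (k * u + k' * v) = 0 := by
    intro l u v c d
    rcases d.lt_or_eq with d | rfl
    · exact co_neg _ (by nlinarith)
    · rw [lo _ _ _ _ (by nlinarith), mul_one]
      exact hS u c
  constructor
  · intro u v c d
    have := M u v (by omega) d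
    rw [n2 _ _ _ (by omega) d, n2 _ _ _ (by omega) d, n1 _ _ (v - J) (by omega) (by omega),
      n1 _ _ (v - J - 1) (by omega) (by omega)] at this
    linear_combination this
  · intro v d
    have := M J v (by omega) (by omega)
    rw [n1 _ (J - J) _ d (by omega), n2 _ _ _ (by omega) (by omega),
      n1 _ _ (v - J) (by omega) (by omega), n1 _ _ (v - J - 1) (by omega) (by omega)] at this
    linear_combination this
  · have := M J 0 (by omega) (by omega)
    rw [lo _ _ (J - J) _ (by nlinarith), n2 _ _ _ (by omega) (by omega),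
      n1 _ _ (0 - J) (by omega) (by omega), n1 _ _ (0 - J - 1) (by omega) (by omega),
      sub_self] at this
    linear_combination this
  · have := M J 1 (by omega) (by omega)
    rw [lo _ _ (J - J) _ (by nlinarith), n2 _ _ _ (by omega) (by omega),
      lo _ _ _ (1 - J) (by nlinarith), n1 _ _ (1 - J - 1) (by omega) (by omega),
      sub_self] at this
    linear_combination this
  · have := M (J + 1) 0 (by omega) (by omega)
    rw [lo _ _ (J + 1 - J) _ (by nlinarith), lo _ _ (J + 1 - J - 1) _ (by nlinarith),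
      lo _ _ _ (0 - J) (by nlinarith), n1 _ _ (0 - J - 1) (by omega) (by omega),
      add_sub_cancel_left, sub_self, zero_sub] at this
    linear_combination this
  · have := M (J + 1) 1 (by omega) (by omega)
    rw [co_G_pow' hG _ _ (n := k * (J + 1 - J) + k' * 1) (by push_cast; nlinarith),
      lo _ _ (J + 1 - J - 1) _ (by nlinarith),
      lo _ _ _ (1 - J) (by nlinarith), lo _ _ _ (1 - J - 1) (by nlinarith),
      add_sub_cancel_left, sub_self, show (1 : ℤ) - J - 1 = -J by ring,
      show (k : ℤ) * 1 + k' * 1 - (k + k' : ℕ) = k * 0 + k' * 0 by push_cast; ring] at this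
    linear_combination this

/-- The local data: `y` are the coefficients of `Q`, `r` those of the product. -/
structure Data (a : ℝ) (y : ℤ → ℤ → ℝ) (r : ℤ → ℤ → ℤ) : Prop where
  a0 : 0 < a
  a1 : a < 1
  nn : ∀ u v, 0 ≤ y u v
  rc : ∀ u v, (r (u + 1) (v + 1) : ℝ) = y (u + 1) (v + 1) + a * y u (v + 1) + y u v
  r01 : ∀ u v, r u v = 0 ∨ r u v = 1
  n1 : ∀ u v, v < 0 → u ≤ -v → y u v = 0
  n2 : ∀ u v, u < 0 → v ≤ 0 → y u v = 0
  y00 : y 0 0 = 1

namespace Data

variable {a : ℝ} {y : ℤ → ℤ → ℝ} {r : ℤ → ℤ → ℤ} (D : Data a y r)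
include D

theorem rc' (u v : ℤ) : (r u v : ℝ) = y u v + a * y (u - 1) v + y (u - 1) (v - 1) := by
  simpa using D.rc (u - 1) (v - 1)

theorem le (u v : ℤ) : y u v + a * y (u - 1) v + y (u - 1) (v - 1) ≤ 1 := by
  rw [← D.rc']
  rcases D.r01 u v with h | h <;> simp [h]

theorem one {u v : ℤ} (h : 0 < y (u - 1) v ∨ 0 < y (u - 1) (v - 1) ∨ 0 < y u v) : r u v = 1 := by
  refine (D.r01 u v).resolve_left fun h0 => ?_
  have h1 := D.rc' u v
  rw [h0, Int.cast_zero] at h1
  have := D.nn u v
  have := D.nn (u - 1) (v - 1)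
  have h2 := mul_nonneg D.a0.le (D.nn (u - 1) v)
  rcases h with h | h | h
  · linarith [mul_pos D.a0 h]
  · linarith
  · linarith

theorem y_le (u v : ℤ) : y u v ≤ 1 := by
  linarith [D.le u v, D.nn (u - 1) (v - 1), mul_nonneg D.a0.le (D.nn (u - 1) v)]

theorem rn1 (u v : ℤ) (c : v < 0) (d : u ≤ -v) : r u v = 0 := by
  have h := D.rc' u v
  rw [D.n1 u v c d, D.n1 _ v c (by omega), D.n1 _ _ (by omega) (by omega)] at h
  exact_mod_cast (by simpa using h : (r u v : ℝ) = 0)

theorem rn2 (u v : ℤ) (c : u < 0) (d : v ≤ 0) : r u v = 0 := by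
  have h := D.rc' u v
  rw [D.n2 u v c d, D.n2 _ v (by omega) d, D.n2 _ _ (by omega) (by omega)] at h
  exact_mod_cast (by simpa using h : (r u v : ℝ) = 0)

theorem r00 : r 0 0 = 1 := D.one (Or.inr (Or.inr (by rw [D.y00]; exact one_pos)))

theorem r11 : r 1 1 = 1 := D.one (Or.inr (Or.inl (by simp [D.y00])))

theorem next {u : ℤ} (h : 0 < y (u - 1) 0) (h' : y (u - 1) (-1) = 0) : 0 < y u 0 := by
  have h1 := D.rc' u 0
  rw [D.one (Or.inl h), zero_sub, h'] at h1
  push_cast at h1
  nlinarith [D.y_le (u - 1) 0, D.a1, D.a0]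

theorem y10 : 0 < y 1 0 := D.next (by simp [D.y00]) (D.n1 _ _ (by omega) (by omega))

theorem row (u : ℤ) (hu : u ≤ 0) : y u 1 = 0 := by
  induction u, hu using Int.leInductionDown with
  | base =>
    have h := D.le 1 1
    simp only [sub_self, D.y00] at h
    nlinarith [D.nn 1 1, D.nn 0 1, D.a0]
  | pred u hu ih =>
    have h := D.rc' u 1
    rw [ih, sub_self, D.n2 _ 0 (by omega) le_rfl] at h
    have h1 := D.y_le (u - 1) 1
    have h2 := D.nn (u - 1) 1
    rcases D.r01 u 1 with c | c <;> rw [c] at h <;> push_cast at h <;> nlinarith [D.a0, D.a1]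

theorem rrow (u : ℤ) (hu : u ≤ 0) : r u 1 = 0 := by
  have h := D.rc' u 1
  rw [D.row u hu, D.row _ (by omega), sub_self, D.n2 _ 0 (by omega) le_rfl] at h
  exact_mod_cast (by simpa using h : (r u 1 : ℝ) = 0)

theorem below {u : ℤ} (h : 0 < y u 0) (h1 : y (u - 1) (-1) = 0) (h2 : y (u - 1) (-2) = 0) :
    y u (-1) = 0 := by
  have h3 := D.rc' u (-1)
  rw [h1, show (-1 : ℤ) - 1 = -2 by norm_num, h2] at h3
  have h4 := D.le (u + 1) 0
  rw [add_sub_cancel_right, zero_sub] at h4
  rcases D.r01 u (-1) with c | c <;> rw [c] at h3 <;> push_cast at h3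
  · linarith
  · linarith [D.nn (u + 1) 0, mul_pos D.a0 h]

theorem caseA {J e e' : ℤ} {r' : ℤ → ℤ → ℤ} (h01 : ∀ u v, r' u v = 0 ∨ r' u v = 1) (hJ : 2 ≤ J)
    (he : e ≠ 0) (E : Eqs J e e' r r') : False := by
  have y1 := D.y10
  have y2 : 0 < y 2 0 := D.next (by simpa using y1) (D.n1 _ _ (by omega) (by omega))
  have y3 : 0 < y 3 0 := D.next (by simpa using y2) (by
    simpa using D.below y2 (D.n1 _ _ (by omega) (by omega)) (D.n1 _ _ (by omega) (by omega)))
  have r10 : r 1 0 = 1 := D.one (Or.inr (Or.inr y1))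
  have e2 := E.e2
  have e4 := E.e4
  have e5 := E.e5
  rw [E.e0 0 0 (by omega) (by omega), D.r00] at e2 e4 e5
  rw [E.e0 1 0 (by omega) (by omega), r10] at e4
  rw [E.e0 1 1 (by omega) (by omega), E.e0 0 1 (by omega) (by omega), D.r11,
    D.rrow 0 le_rfl] at e5
  have p1 := h01 J 0
  have p2 := h01 (J + 1) 0
  have p3 := h01 (J + 1) 1
  have q4 := D.r01 (J + 1) (1 - J)
  have q5 := D.r01 (J + 1) (-J)
  rcases le_or_gt 4 J with c | c
  · have q1 := D.r01 J 0
    have q2 := D.r01 (J + 1) 0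
    have q3 := D.r01 (J + 1) 1
    have : e = 1 ∨ e = -1 := by omega
    rcases this with rfl | rfl <;> rcases q5 with q5 | q5 <;> rw [q5] at e4 e5 <;> omega
  · have yJ : 0 < y J 0 := by
      obtain rfl | rfl : J = 2 ∨ J = 3 := by omega
      exacts [y2, y3]
    rw [D.one (Or.inr (Or.inr yJ))] at e2
    rw [D.one (u := J + 1) (Or.inl (by simpa using yJ))] at e4
    rw [D.one (u := J + 1) (v := 1) (Or.inr (Or.inl (by simpa using yJ)))] at e5
    obtain rfl : e = 1 := by omega
    rcases q5 with q5 | q5 <;> rw [q5] at e4 e5 <;> omega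

theorem column {u : ℤ} (h0 : 0 < y (u - 1) 0) (h : ∀ v < 0, y (u - 1) v = 0) :
    r u 0 = 1 ∧ r u 1 = 1 ∧ 0 < y u 0 ∧ ∀ v < 0, y u v = r u v := by
  refine ⟨D.one (Or.inl h0), D.one (Or.inr (Or.inl (by simpa using h0))),
    D.next h0 (h _ (by omega)), fun v hv => ?_⟩
  rw [D.rc', h v hv, h _ (by omega)]
  ring

theorem caseB {J e e' : ℤ} {r' : ℤ → ℤ → ℤ} (h01 : ∀ u v, r' u v = 0 ∨ r' u v = 1) (hJ : 2 ≤ J)
    (he : e ≠ 0) (n1 : ∀ u v, v < 0 → u ≤ -v → r' u v = 0) (n2 : ∀ u v, u < 0 → v ≤ 0 → r' u v = 0)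
    (E : Eqs J e e' (fun u v => r u v + r (u - 1) (v - 1) - r (u - 1) v)
      fun u v => r' u v + r' (u - 1) (v - 1) - r' u (v - 1)) : False := by
  have r10 : r 1 0 = 1 := D.one (Or.inr (Or.inr D.y10))
  have s00 := E.e0 0 0 (by omega) (by omega)
  have s01 := E.e0 0 1 (by omega) (by omega)
  have s10 := E.e0 1 0 (by omega) (by omega)
  have s11 := E.e0 1 1 (by omega) (by omega)
  have e1 := E.e1
  have e2 := E.e2
  have e3 := E.e3
  have e4 := E.e4
  have e5 := E.e5
  simp only [zero_sub, sub_self, add_sub_cancel_right] at s00 s01 s10 s11 e1 e2 e3 e4 e5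
  have a1 := D.rn2 (-1) (-1) (by omega) (by omega)
  have a2 := D.rn2 (-1) 0 (by omega) (by omega)
  have a3 := D.rrow (-1) (by omega)
  have a4 := D.rrow 0 (by omega)
  have a5 := D.rn1 0 (-1) (by omega) (by omega)
  have a6 := D.r00
  have a7 := D.r11
  have b1 := n2 (-1) (-1) (by omega) (by omega)
  have b2 := n2 (-1) 0 (by omega) (by omega)
  have b3 := n1 0 (-1) (by omega) (by omega)
  have b4 := n1 1 (-1) (by omega) (by omega)
  have t00 : r' 0 0 = 1 := by omega
  have t01 : r' 0 1 = 1 := by omega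
  have t10 : r' 1 0 = 0 := by omega
  have t11 : r' 1 1 = 1 := by omega
  have ind : ∀ u, 1 ≤ u → u < J → (∀ v < 0, y u v = 0 ∧ r u v = 0 ∧ r' u v = 0) ∧ r' u 0 = 0 ∧
      0 < y u 0 ∧ r u 0 = 1 ∧ r u 1 = 1 := by
    intro u hu
    induction u, hu using Int.leInduction with
    | base =>
      exact fun _ => ⟨fun v hv => ⟨D.n1 _ _ hv (by omega), D.rn1 _ _ hv (by omega),
        n1 _ _ hv (by omega)⟩, t10, D.y10, r10, a7⟩
    | succ u hu ih =>
      intro hu'
      obtain ⟨i1, i2, i3, i4, i5⟩ := ih (by omega)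
      obtain ⟨c1, c2, c3, c4⟩ := D.column (u := u + 1) (by simpa using i3)
        (fun v hv => by simpa using (i1 v hv).1)
      have f1 := E.e0 (u + 1) 1 hu' le_rfl
      have f0 := E.e0 (u + 1) 0 hu' (by omega)
      simp only [zero_sub, sub_self, add_sub_cancel_right] at f0 f1
      have g1 := h01 (u + 1) 1
      have g2 := h01 (u + 1) 0
      have g3 := i1 (-1) (by omega)
      have g4 : r' (u + 1) 0 = 0 := by omega
      have dn : ∀ v ≤ (-1 : ℤ), r' (u + 1) v = 0 := by
        intro v hv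
        induction v, hv using Int.leInductionDown with
        | base => omega
        | pred v hv ih' =>
          have f := E.e0 (u + 1) v hu' (by omega)
          simp only [add_sub_cancel_right] at f
          have := i1 v (by omega)
          have := i1 (v - 1) (by omega)
          have := h01 (u + 1) (v - 1)
          have := D.r01 (u + 1) v
          omega
      refine ⟨fun v hv => ?_, g4, c3, c1, c2⟩
      have f := E.e0 (u + 1) v hu' (by omega)
      simp only [add_sub_cancel_right] at f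
      have := i1 v hv
      have := i1 (v - 1) (by omega)
      have := dn v (by omega)
      have := dn (v - 1) (by omega)
      have h5 : r (u + 1) v = 0 := by omega
      exact ⟨by rw [c4 v hv, h5, Int.cast_zero], h5, dn v (by omega)⟩
  obtain ⟨i1, i2, i3, i4, i5⟩ := ind (J - 1) (by omega) (by omega)
  obtain ⟨c1, c2, c3, c4⟩ := D.column (u := J) i3 fun v hv => (i1 v hv).1
  have col : ∀ v < 0, r' J v - r' J (v - 1) = r J v := fun v hv => by
    have := e1 v hv
    have := i1 v hv
    have := i1 (v - 1) (by omega)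
    omega
  have mono : ∀ v, 1 - J ≤ v → v < 0 → r J (1 - J) ≤ r' J v := by
    intro v hv
    induction v, hv using Int.leInduction with
    | base =>
      intro h
      have := col _ h
      have := h01 J (1 - J - 1)
      omega
    | succ v hv ih =>
      intro h
      have := col _ h
      rw [add_sub_cancel_right] at this
      have := ih (by omega)
      have := D.r01 J (v + 1)
      omega
  have m1 := mono (-1) (by omega) (by omega)
  have d1 := i1 (-1) (by omega)
  have d2 := i1 (1 - J) (by omega)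
  have d3 := i1 (1 - J - 1) (by omega)
  have d4 := D.rn1 J (1 - J - 1) (by omega) (by omega)
  have d5 := D.rn1 J (-J - 1) (by omega) (by omega)
  have d6 := D.rn1 J (-J) (by omega) (by omega)
  have d7 : r J (-1) = 0 := by
    have := D.below c3 d1.1 (i1 _ (by omega)).1
    rw [c4 _ (by omega)] at this
    exact_mod_cast this
  obtain ⟨c5, c6⟩ : r (J + 1) 0 = 1 ∧ r (J + 1) 1 = 1 :=
    ⟨D.one (Or.inl (by simpa using c3)), D.one (Or.inr (Or.inl (by simpa using c3)))⟩
  rw [t00, b1, b3] at e2 e4 e5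
  rw [t01, b2, t00, d2.2.1, d3.2.1] at e3
  rw [t10, b4, d5, d6] at e4
  rw [t11, t10, t01, b2, d4, d5, d6] at e5
  have p1 := h01 J 0
  have p2 := h01 J 1
  have p3 := h01 J (-1)
  have p4 := D.r01 J (1 - J)
  obtain rfl : e = 1 := by
    have : e = 1 ∨ e = -1 := by omega
    rcases this with rfl | rfl <;> omega
  have J4 : 4 ≤ J := by
    have k1 := col (-1) (by omega)
    have k2 := col (-2) (by omega)
    norm_num at k1 k2
    by_contra hc
    obtain rfl | rfl : J = 2 ∨ J = 3 := by omega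
    · have := n1 2 (-2) (by omega) (by omega)
      omega
    · have := n1 3 (-3) (by omega) (by omega)
      norm_num at *
      omega
  have p5 := h01 (J + 1) 0
  have p6 := h01 (J + 1) 1
  have p7 := h01 (J + 1) (-1)
  have p8 := D.r01 (J + 1) (1 - J)
  rcases D.r01 (J + 1) (-J) with q | q <;> rw [q] at e4 e5 <;> omega

end Data

end Pool.Agent.P.MP_9bb6b5_al
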