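import Pool.Agent.P.MP_9bb6b5_al.Tri

/-!
Mirroring a rational factor of a 0,1 polynomial gives a 0,1 polynomial; the case of the product
of the conjugates of `H + a U`.
-/

set_option autoImplicit false

namespace Pool.Agent.P.MP_9bb6b5_al

open Polynomial Finset

theorem zero_one_flip {N W : ℤ[X]} (hN : N ≠ 0) (hW : W ≠ 0)
    (h : ∀ i, (W * N).coeff i = 0 ∨ (W * N).coeff i = 1) (i : ℕ) :
    (W * N.mirror).coeff i = 0 ∨ (W * N.mirror).coeff i = 1 := by
  have h1 := sum_sq_mul_mirror hW hN
  have h2 := sum_mul_mirror W N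
  rw [sum_congr (s₁ := (W * N).support) rfl (g := fun d => (W * N).coeff d) fun d _ => by
    rcases h d with e | e <;> simp [e], ← h2, ← sub_eq_zero, ← sum_sub_distrib] at h1
  have nn : ∀ c : ℤ, 0 ≤ c ^ 2 - c := fun c => by
    rcases le_or_gt c 0 with e | e <;> nlinarith
  by_cases hi : i ∈ (W * N.mirror).support
  · have h3 := (sum_eq_zero_iff_of_nonneg fun d _ => nn _).1 h1 i hi
    have h4 : (W * N.mirror).coeff i * ((W * N.mirror).coeff i - 1) = 0 := by
      linear_combination h3
    rcases mul_eq_zero.1 h4 with e | e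
    · exact Or.inl e
    · exact Or.inr (sub_eq_zero.1 e)
  · exact Or.inl (notMem_support_iff.1 hi)

theorem monic_pencil {K : Type*} [CommRing K] [Nontrivial K] {H U : ℤ[X]} (hH : H.Monic)
    (hU : U.degree < H.degree) (z : K) :
    (H.map (Int.castRingHom K) + C z * U.map (Int.castRingHom K)).Monic := by
  refine (hH.map _).add_of_left ?_
  rw [hH.degree_map, ← smul_eq_C_mul]
  exact lt_of_le_of_lt ((degree_smul_le _ _).trans (degree_map_le)) hU

theorem conj_dvd {H U R : ℤ[X]} (hH : H.Monic) (hU : U.degree < H.degree) {a : ℝ}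
    (ia : IsIntegral ℤ a)
    (hd : H.map (Int.castRingHom ℝ) + C a * U.map (Int.castRingHom ℝ) ∣ R.map (Int.castRingHom ℝ))
    {z : ℂ} (hz : aeval z (minpoly ℤ a) = 0) :
    H.map (Int.castRingHom ℂ) + C z * U.map (Int.castRingHom ℂ) ∣ R.map (Int.castRingHom ℂ) := by
  have hm := monic_pencil (K := ℤ[X]) hH hU X
  have key : ∀ {K : Type} [CommRing K] [Nontrivial K] (w : K),
      (R.map (Int.castRingHom ℤ[X]) %ₘ (H.map (Int.castRingHom ℤ[X]) +
        C X * U.map (Int.castRingHom ℤ[X]))).map (aeval w : ℤ[X] →ₐ[ℤ] K).toRingHom = 0 ↔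
      H.map (Int.castRingHom K) + C w * U.map (Int.castRingHom K) ∣
        R.map (Int.castRingHom K) := by
    intro K _ _ w
    rw [map_modByMonic _ hm, Polynomial.map_add, Polynomial.map_mul, map_C, Polynomial.map_map,
      Polynomial.map_map, Polynomial.map_map, RingHom.eq_intCast' (RingHom.comp _ _),
      ← modByMonic_eq_zero_iff_dvd (monic_pencil hH hU w)]
    simp
  rw [← key] at hd ⊢
  ext i
  have h1 := congrArg (coeff · i) hd
  simp only [coeff_map, coeff_zero] at h1 ⊢
  exact aeval_eq_zero_of_dvd_aeval_eq_zero (minpoly.isIntegrallyClosed_dvd ia h1) hz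

theorem prod_pencil {A : Type*} [CommRing A] [Algebra ℂ A] {H U G : A} (hG : H * G = 1)
    (s : Multiset ℂ) : (s.map fun z => H + algebraMap ℂ A z * U).prod =
      H ^ s.card * aeval (U * G) (s.map fun z => 1 + C z * X).prod := by
  induction s using Multiset.induction_on with
  | empty => simp
  | cons z s ih =>
    simp only [Multiset.map_cons, Multiset.prod_cons, Multiset.card_cons, map_mul, map_add,
      map_one, aeval_C, aeval_X, ih]
    linear_combination (-(algebraMap ℂ A z * U * H ^ s.card *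
      aeval (U * G) (s.map fun z => 1 + C z * X).prod)) * hG

theorem exists_revpoly {a : ℝ} (ia : IsIntegral ℤ a) :
    ∃ (f : ℤ[X]) (s : Multiset ℂ), s.Nodup ∧ (∀ z ∈ s, aeval z (minpoly ℤ a) = 0) ∧ (a : ℂ) ∈ s ∧
      f.map (Int.castRingHom ℂ) = (s.map fun z => 1 + C z * X).prod := by
  have hm := (minpoly.monic ia).map (Int.castRingHom ℂ)
  have e := (IsAlgClosed.splits _).eq_prod_roots_of_monic hm
  have rt : ∀ z : ℂ, z ∈ ((minpoly ℤ a).map (Int.castRingHom ℂ)).roots ↔
      aeval z (minpoly ℤ a) = 0 := fun z => by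
    rw [mem_roots hm.ne_zero, IsRoot.def, eval_map, aeval_def]
    rfl
  refine ⟨(minpoly ℤ a).reverse.comp (-X), _, nodup_roots ?_, fun z => (rt z).1, (rt _).2 ?_, ?_⟩
  · have h1 := (minpoly.irreducible (ia.tower_top (A := ℚ))).separable.map
      (f := algebraMap ℚ ℂ)
    rwa [minpoly.isIntegrallyClosed_eq_field_fractions' ℚ ia, Polynomial.map_map,
      RingHom.eq_intCast' (RingHom.comp _ _)] at h1
  · rw [show (a : ℂ) = algebraMap ℝ ℂ a from rfl, aeval_algebraMap_apply, minpoly.aeval, map_zero]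
  · have h1 : (minpoly ℤ a).reverse.map (Int.castRingHom ℂ) =
        ((minpoly ℤ a).map (Int.castRingHom ℂ)).reverse := by
      rw [reverse, reverse, ← reflect_map, (minpoly.monic ia).natDegree_map]
    rw [map_comp, h1]
    generalize ((minpoly ℤ a).map (Int.castRingHom ℂ)).roots = s at e
    rw [e]
    clear e
    induction s using Multiset.induction_on with
    | empty => simp [reverse]
    | cons z s ih =>
      simp only [Multiset.map_cons, Multiset.prod_cons, reverse_mul_of_domain, mul_comp, ih]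
      congr 1
      rw [reverse, natDegree_X_sub_C, reflect_sub, reflect_C, ← pow_one X, reflect_monomial]
      simp

theorem map_aeval_ps (f : ℤ[X]) (y : PowerSeries ℤ) :
    PowerSeries.map (Int.castRingHom ℂ) (aeval y f) =
      aeval (PowerSeries.map (Int.castRingHom ℂ) y) (f.map (Int.castRingHom ℂ)) := by
  induction f using Polynomial.induction_on' with
  | add p q hp hq => simp [hp, hq]
  | monomial n c => simp [aeval_monomial]

theorem exists_norm {H U f : ℤ[X]} {s : Multiset ℂ}
    (hf : f.map (Int.castRingHom ℂ) = (s.map fun z => 1 + C z * X).prod) {G : PowerSeries ℤ}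
    (hG : (H : PowerSeries ℤ) * G = 1) :
    ∃ N : ℤ[X], N.map (Int.castRingHom ℂ) =
        (s.map fun z => H.map (Int.castRingHom ℂ) + C z * U.map (Int.castRingHom ℂ)).prod ∧
      (N : PowerSeries ℤ) = (H : PowerSeries ℤ) ^ s.card * aeval ((U : PowerSeries ℤ) * G) f := by
  have inj : Function.Injective (Int.castRingHom ℂ) := RingHom.injective_int _
  have h1 : (((s.map fun z => H.map (Int.castRingHom ℂ) +
      C z * U.map (Int.castRingHom ℂ)).prod : ℂ[X]) : PowerSeries ℂ) =
      PowerSeries.map (Int.castRingHom ℂ)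
        ((H : PowerSeries ℤ) ^ s.card * aeval ((U : PowerSeries ℤ) * G) f) := by
    have h2 := congrArg (PowerSeries.map (Int.castRingHom ℂ)) hG
    rw [map_mul, map_one] at h2
    rw [map_mul, map_pow, map_aeval_ps, hf, map_mul, ← prod_pencil h2,
      ← coeToPowerSeries.ringHom_apply, map_multiset_prod, Multiset.map_map]
    refine congrArg _ (Multiset.map_congr rfl fun z _ => ?_)
    simp [polynomial_map_coe]
  obtain ⟨N, hN⟩ := (mem_lifts _).1 ((lifts_iff_coeff_lifts (f := Int.castRingHom ℂ)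
    (s.map fun z => H.map (Int.castRingHom ℂ) + C z * U.map (Int.castRingHom ℂ)).prod).2
      fun n => by
        rw [← coeff_coe, h1, PowerSeries.coeff_map]
        exact ⟨_, rfl⟩)
  refine ⟨N, hN, PowerSeries.map_injective _ inj ?_⟩
  rw [← h1, ← hN, polynomial_map_coe]

theorem exists_flip {H U H' U' R : ℤ[X]} (hH : H.Monic) (hU : U.degree < H.degree) {a : ℝ}
    (ia : IsIntegral ℤ a) (hR : ∀ i, R.coeff i = 0 ∨ R.coeff i = 1) (R0 : R ≠ 0)
    (hd : H.map (Int.castRingHom ℝ) + C a * U.map (Int.castRingHom ℝ) ∣ R.map (Int.castRingHom ℝ))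
    (hc : ∀ z w : ℂ, z ≠ w → IsCoprime
      (H.map (Int.castRingHom ℂ) + C z * U.map (Int.castRingHom ℂ))
      (H.map (Int.castRingHom ℂ) + C w * U.map (Int.castRingHom ℂ)))
    (hm : ∀ z : ℂ, (H.map (Int.castRingHom ℂ) + C z * U.map (Int.castRingHom ℂ)).mirror =
      H'.map (Int.castRingHom ℂ) + C z * U'.map (Int.castRingHom ℂ))
    {G G' : PowerSeries ℤ} (hG : (H : PowerSeries ℤ) * G = 1)
    (hG' : (H' : PowerSeries ℤ) * G' = 1) :
    ∃ (f R' : ℤ[X]) (s : Multiset ℂ), (a : ℂ) ∈ s ∧
      f.map (Int.castRingHom ℂ) = (s.map fun z => 1 + C z * X).prod ∧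
      (∀ i, R'.coeff i = 0 ∨ R'.coeff i = 1) ∧
      (R' : PowerSeries ℤ) *
          ((H : PowerSeries ℤ) ^ s.card * aeval ((U : PowerSeries ℤ) * G) f) =
        (R : PowerSeries ℤ) *
          ((H' : PowerSeries ℤ) ^ s.card * aeval ((U' : PowerSeries ℤ) * G') f) := by
  have inj : Function.Injective (Int.castRingHom ℂ) := RingHom.injective_int _
  obtain ⟨f, s, nd, rt, ha, hf⟩ := exists_revpoly ia
  obtain ⟨N, hN, eN⟩ := exists_norm (U := U) hf hG
  obtain ⟨N', hN', eN'⟩ := exists_norm (U := U') hf hG'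
  have mN : N.Monic := monic_of_injective inj (hN ▸ monic_multiset_prod_of_monic _ _
    fun z _ => monic_pencil hH hU z)
  have mir : N.mirror = N' := by
    refine map_injective _ inj ?_
    rw [← mirror_map inj, hN, hN']
    clear hN hN' hf ha rt nd eN eN'
    induction s using Multiset.induction_on with
    | empty => simpa using mirror_C (1 : ℂ)
    | cons z s ih =>
      simp only [Multiset.map_cons, Multiset.prod_cons, mirror_mul_of_domain, ih, hm]
  obtain ⟨W, hW⟩ : N ∣ R := by
    rw [← map_dvd_map _ inj mN, hN]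
    exact prod_dvd_of_coprime (t := ⟨s, nd⟩) (fun z _ w _ h => hc z w h) fun z hz =>
      conj_dvd hH hU ia hd (rt z hz)
  have W0 : W ≠ 0 := fun h => R0 (by rw [hW, h, mul_zero])
  refine ⟨f, W * N', s, ha, hf, mir ▸ zero_one_flip mN.ne_zero W0 (by rwa [mul_comm, ← hW]), ?_⟩
  rw [← eN, ← eN', hW]
  push_cast
  ring

end Pool.Agent.P.MP_9bb6b5_al
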