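import Pool.Agent.P.MP_9bb6b5_al.Tri

/-!
A fractional trinomial factor: the size of the conjugates and their number.
-/

set_option autoImplicit false

namespace Pool.Agent.P.MP_9bb6b5_al

open Polynomial Finset

theorem chain {a : ℝ} {k n : ℕ} {Q : ℝ[X]} (hk : 0 < k) (a0 : 0 < a) (a1 : a < 1)
    (hq : ∀ i, 0 ≤ Q.coeff i) (h0 : Q.coeff 0 = 1)
    (hR : ∀ i, ((1 + C a * X ^ k + X ^ n) * Q).coeff i = 0 ∨
      ((1 + C a * X ^ k + X ^ n) * Q).coeff i = 1) (j : ℕ) (hj : j * k < n) :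
    (1 + a) * Q.coeff (j * k) = 1 - (-a) ^ (j + 1) := by
  induction j with
  | zero => simp [h0]
  | succ j ih =>
    have h1 := ih (by nlinarith)
    have h2 := hR ((j + 1) * k)
    rw [coeff_tri_mul, if_pos (by nlinarith), if_neg hj.not_ge,
      show (j + 1) * k - k = j * k by rw [add_mul, one_mul, add_tsub_cancel_right]] at h2
    have h3 : (-a) ^ (j + 1) < 1 := lt_of_abs_lt (by
      rw [abs_pow, abs_neg, abs_of_pos a0]; exact pow_lt_one₀ a0.le a1 (by omega))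
    have h4 : 0 < Q.coeff (j * k) := by nlinarith [hq (j * k)]
    rcases h2 with h2 | h2
    · nlinarith [hq ((j + 1) * k), mul_pos a0 h4]
    · rw [pow_succ]
      linear_combination (1 + a) * h2 - a * h1

theorem le_half {a : ℝ} {k n : ℕ} {Q : ℝ[X]} (hk : 0 < k) (hn : 2 * k < n) (a0 : 0 < a)
    (a1 : a < 1) (hq : ∀ i, 0 ≤ Q.coeff i) (h0 : Q.coeff 0 = 1)
    (hR : ∀ i, ((1 + C a * X ^ k + X ^ n) * Q).coeff i = 0 ∨
      ((1 + C a * X ^ k + X ^ n) * Q).coeff i = 1) : a ≤ 1 / 2 := by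
  have c1 := chain hk a0 a1 hq h0 hR 1 (by omega)
  have c2 := chain hk a0 a1 hq h0 hR 2 hn
  rw [one_mul] at c1
  have b1 : Q.coeff k = 1 - a := mul_left_cancel₀ (by linarith : 1 + a ≠ 0) (by rw [c1]; ring)
  have b2 : Q.coeff (2 * k) = 1 - a + a ^ 2 :=
    mul_left_cancel₀ (by linarith : 1 + a ≠ 0) (by rw [c2]; ring)
  have e0 := hR n
  have e1 := hR (n + k)
  have e2 := hR (n + 2 * k)
  rw [coeff_tri_mul, if_pos (by omega), if_pos (by omega)] at e0 e1 e2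
  rw [tsub_self, h0] at e0
  rw [add_tsub_cancel_right, add_tsub_cancel_left, b1] at e1
  rw [show n + 2 * k - k = n + k by omega, add_tsub_cancel_left, b2] at e2
  have b3 : Q.coeff n = 0 := by
    rcases e0 with e | e <;> nlinarith [hq n, mul_nonneg a0.le (hq (n - k))]
  rw [b3] at e1
  have b4 : Q.coeff (n + k) = a := by
    rcases e1 with e | e <;> nlinarith [hq (n + k)]
  rw [b4] at e2
  rcases e2 with e | e <;> nlinarith [hq (n + 2 * k)]

theorem house_lt {z : ℂ} {k n J : ℕ} {Q : ℂ[X]} (hk : 0 < k) (hJ : (J + 1) * k < n)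
    (hR : ∀ i, ‖((1 + C z * X ^ k + X ^ n) * Q).coeff i‖ ≤ 1)
    (hb : (1 + z) * Q.coeff ((J + 1) * k) = 1 - (-z) ^ (J + 2)) {ε : ℝ} (e0 : 0 < ε) (e1 : ε ≤ 1)
    (hε : 4 ≤ ε * (1 + ε) ^ J) : ‖z‖ < (1 + ε) ^ 2 := by
  by_contra hc
  push Not at hc
  set ϱ := 1 + ε with hϱ
  have ϱ1 : 1 ≤ ϱ := by linarith
  obtain ⟨s, -, hs⟩ := exists_max_image (range (Q.natDegree + 1))
    (fun s => ‖Q.coeff s‖ / ϱ ^ (s / k)) ⟨0, by simp⟩
  set β := ‖Q.coeff s‖ / ϱ ^ (s / k) with hβ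
  have β0 : 0 ≤ β := by positivity
  have bd : ∀ t, ‖Q.coeff t‖ ≤ β * ϱ ^ (t / k) := fun t => by
    rcases lt_or_ge t (Q.natDegree + 1) with c | c
    · exact (div_le_iff₀ (by positivity)).1 (hs t (mem_range.2 c))
    · rw [coeff_eq_zero_of_natDegree_lt c, norm_zero]; positivity
  have T1 : 1 ≤ ϱ ^ (s / k) := one_le_pow₀ ϱ1
  have h1 := hR (s + k)
  rw [coeff_tri_mul, if_pos (by omega), add_tsub_cancel_right] at h1
  have h2 := bd (s + k)
  rw [Nat.add_div_right _ hk, pow_succ] at h2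
  have h3 : ‖if n ≤ s + k then Q.coeff (s + k - n) else 0‖ ≤ β * ϱ ^ (s / k) * (ε / 4) := by
    split_ifs with c
    · refine (bd _).trans ?_
      have d1 : (s + k - n) / k + J ≤ s / k := by
        rw [← Nat.add_mul_div_right _ _ hk]
        refine Nat.div_le_div_right ?_
        rw [add_mul] at hJ
        omega
      have d2 : ϱ ^ ((s + k - n) / k) * ϱ ^ J ≤ ϱ ^ (s / k) := by
        rw [← pow_add]; exact pow_le_pow_right₀ ϱ1 d1
      have d3 : 0 ≤ ϱ ^ ((s + k - n) / k) := by positivity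
      rw [mul_assoc]
      refine mul_le_mul_of_nonneg_left ?_ β0
      nlinarith
    · rw [norm_zero]; positivity
  have h4 : ‖z‖ * (β * ϱ ^ (s / k)) ≤ ϱ ^ (s / k) + β * (ϱ ^ (s / k) * ϱ) +
      β * ϱ ^ (s / k) * (ε / 4) := by
    refine le_trans (le_of_eq (b := ‖z * Q.coeff s‖) (by
      rw [hβ, div_mul_cancel₀ _ (by positivity), norm_mul])) ?_
    refine le_trans ?_ (add_le_add (add_le_add (h1.trans T1) h2) h3)
    refine le_trans (le_of_eq ?_) ((norm_sub_le _ _).trans (add_le_add_left (norm_sub_le _ _) _))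
    congr 1
    ring
  have h5 : β * (‖z‖ - ϱ - ε / 4) ≤ 1 := by
    refine le_of_mul_le_mul_right ?_ (show 0 < ϱ ^ (s / k) by positivity)
    linarith
  have x1 : ϱ ≤ ‖z‖ := le_trans (by nlinarith) hc
  have h6 : 3 / 4 * ε * ‖z‖ * β ≤ ϱ := by
    have : 3 / 4 * ε * ‖z‖ ≤ ϱ * (‖z‖ - ϱ - ε / 4) := by nlinarith
    nlinarith
  have h7 := bd ((J + 1) * k)
  rw [Nat.mul_div_cancel _ hk] at h7
  have h8 : ‖z‖ ^ (J + 2) - 1 ≤ 2 * ‖z‖ * (β * ϱ ^ (J + 1)) := by
    have d1 := norm_sub_norm_le ((-z) ^ (J + 2)) 1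
    rw [norm_sub_rev, ← hb, norm_mul, norm_pow, norm_neg, norm_one] at d1
    have d2 : ‖1 + z‖ ≤ 2 * ‖z‖ := (norm_add_le _ _).trans (by rw [norm_one]; linarith)
    exact d1.trans (by gcongr)
  have h9 : ϱ ^ (J + 2) * ϱ ^ J ≤ ‖z‖ ^ (J + 2) := by
    refine le_trans ?_ (pow_le_pow_left₀ (by positivity) hc _)
    rw [← pow_add, ← pow_mul]
    exact pow_le_pow_right₀ ϱ1 (by omega)
  have T2 : 1 ≤ ϱ ^ (J + 2) := one_le_pow₀ ϱ1
  have h10 : 3 / 4 * ε * ‖z‖ * β * ϱ ^ (J + 1) ≤ ϱ ^ (J + 2) := by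
    rw [pow_succ' ϱ (J + 1)]; gcongr
  nlinarith [mul_le_mul_of_nonneg_left hε (show 0 ≤ ϱ ^ (J + 2) by positivity),
    mul_le_mul_of_nonneg_left h9 e0.le, mul_le_mul_of_nonneg_left h8 e0.le]

theorem card_bound {ι : Type*} [Fintype ι] {z : ι → ℂ} (hz : Function.Injective z) {k n : ℕ}
    (hk : 0 < k) (hn : 4 * k ≤ n) {R : ℂ[X]} (hR : ∀ i, ‖R.coeff i‖ ≤ 1) (h0 : R.coeff 0 = 1)
    (hd : ∀ i, 1 + C (z i) * X ^ k + X ^ n ∣ R) (h1 : ∀ i, ‖z i‖ ≤ 11 / 10)
    (h2 : 1 ≤ ∏ i, ‖z i‖) : 19 / 48 * (Fintype.card ι : ℝ) ≤ Real.log (14 * n) := by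
  have n4 : (4 : ℝ) ≤ n := by exact_mod_cast (by omega : 4 ≤ n)
  obtain ⟨H, hH⟩ : ∏ i, (1 + C (z i) * X ^ k + X ^ n) ∣ R := by
    refine prod_dvd_of_coprime (fun i _ j _ hij => ?_) fun i _ => hd i
    obtain ⟨m, rfl⟩ := Nat.exists_eq_add_of_le (show k ≤ n by omega)
    have hne : z j - z i ≠ 0 := sub_ne_zero.2 (hz.ne hij).symm
    refine ⟨1 + C (z j - z i)⁻¹ * (C (z i) + X ^ m), -(C (z j - z i)⁻¹ * (C (z i) + X ^ m)), ?_⟩
    have : C (z j - z i)⁻¹ * (C (z j) - C (z i)) = (1 : ℂ[X]) := by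
      rw [← map_sub, ← map_mul, inv_mul_cancel₀ hne, map_one]
    linear_combination (-(C (z i) + X ^ m) * X ^ k) * this
  set t : ℝ := 1 / (25 * n) with ht
  have t0 : 0 < t := by positivity
  have t1 : t ≤ 1 / 100 := one_div_le_one_div_of_le (by norm_num) (by linarith)
  have tn : t * n = 1 / 25 := by rw [ht]; field_simp
  have r0 : 0 < 1 - t := by linarith
  have r1 : 1 - t ≤ 1 := by linarith
  have lr : -(1 / 24) ≤ n * Real.log (1 - t) := by
    have := Real.one_sub_inv_le_log_of_pos r0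
    have h3 : (1 - t)⁻¹ ≤ 1 + 25 / 24 * t := by
      rw [inv_le_iff_one_le_mul₀ r0]; nlinarith
    nlinarith
  have H0 : H.coeff 0 = 1 := by
    rw [hH, coeff_zero_eq_eval_zero, eval_mul, eval_prod] at h0
    simpa [hk.ne', show n ≠ 0 by omega, coeff_zero_eq_eval_zero] using h0
  have m1 : 1 ≤ (H.comp (C ((1 - t : ℝ) : ℂ) * X)).mahlerMeasure := by
    have := norm_coeff_le_choose_mul_mahlerMeasure 0 (H.comp (C ((1 - t : ℝ) : ℂ) * X))
    rw [comp_C_mul_X_coeff, H0] at this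
    simpa using this
  have m2 : (R.comp (C ((1 - t : ℝ) : ℂ) * X)).mahlerMeasure ≤ √(14 * n) := by
    refine (mahlerMeasure_le_sqrt_sum_sq_norm_coeff _).trans (Real.sqrt_le_sqrt ?_)
    have h3 : (1 - t) ^ 2 < 1 := by nlinarith
    refine le_trans (sum_le_sum (g := fun i => ((1 - t) ^ 2) ^ i) fun i _ => ?_) ?_
    · rw [comp_C_mul_X_coeff, norm_mul, norm_pow, Complex.norm_real, Real.norm_of_nonneg r0.le,
        ← pow_mul, mul_comm 2, pow_mul]
      exact pow_le_pow_left₀ (by positivity) (mul_le_of_le_one_left (by positivity) (hR i)) 2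
    · refine ((summable_geometric_of_lt_one (by positivity) h3).sum_le_tsum _
        fun _ _ => by positivity).trans ?_
      rw [tsum_geometric_of_lt_one (by positivity) h3, inv_le_iff_one_le_mul₀ (by linarith)]
      nlinarith
  have pos : ∀ i, 0 < ((1 + C (z i) * X ^ k + X ^ n).comp
      (C ((1 - t : ℝ) : ℂ) * X)).mahlerMeasure := fun i => mahlerMeasure_pos_of_ne_zero fun h => by
    have := congrArg (coeff · 0) h
    simp [hk.ne', show n ≠ 0 by omega, coeff_zero_eq_eval_zero] at this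
  have m3 : ∏ i, ((1 + C (z i) * X ^ k + X ^ n).comp (C ((1 - t : ℝ) : ℂ) * X)).mahlerMeasure ≤
      √(14 * n) := by
    refine le_trans ?_ m2
    rw [hH, mul_comp, mahlerMeasure_mul, Polynomial.prod_comp, prod_eq_multiset_prod,
      prod_eq_multiset_prod, prod_mahlerMeasure_eq_mahlerMeasure_prod, Multiset.map_map]
    exact le_mul_of_one_le_right (Multiset.prod_nonneg fun x hx => by
      obtain ⟨i, -, rfl⟩ := Multiset.mem_map.1 hx
      exact (pos i).le) m1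
  have m4 := Real.log_le_log (prod_pos fun i _ => pos i) m3
  rw [Real.log_prod fun i _ => (pos i).ne', Real.log_sqrt (by positivity)] at m4
  have m5 := sum_le_sum fun i (_ : i ∈ univ) => log_mahler_tri (h1 i) hk hn r0 r1
  have m6 := card_le_sum_of_one_le_prod univ (fun i => norm_nonneg (z i)) h2
  rw [sum_add_distrib, ← mul_sum, sum_const, nsmul_eq_mul] at m5
  rw [card_univ] at m5 m6
  nlinarith [mul_le_mul_of_nonneg_left lr (Nat.cast_nonneg (α := ℝ) (Fintype.card ι))]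

end Pool.Agent.P.MP_9bb6b5_al
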