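import Pool.Agent.P.MP_9bb6b5_al.Corner

/-!
A trinomial with a fractional middle coefficient is not a factor of the required kind.
-/

set_option autoImplicit false

namespace Pool.Agent.P.MP_9bb6b5_al

open Polynomial

theorem exists_first {g : ℤ[X]} (g0 : g.coeff 0 = 1) (g1 : g.coeff 1 = 0) (hg : g ≠ 1) :
    ∃ J, 2 ≤ J ∧ g.coeff J ≠ 0 ∧ ∀ i, 0 < i → i < J → g.coeff i = 0 := by
  classical
  have h : ∃ i, 0 < i ∧ g.coeff i ≠ 0 := by
    by_contra hc
    push Not at hc
    refine hg (Polynomial.ext fun i => ?_)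
    rcases i.eq_zero_or_pos with rfl | c
    · simpa using g0
    · rw [hc i c, coeff_one, if_neg c.ne']
  have h1 := Nat.find_spec h
  refine ⟨Nat.find h, ?_, h1.2, fun i c d => by simpa [c] using Nat.find_min h d⟩
  by_contra hc
  exact h1.2 (by rwa [show Nat.find h = 1 by omega])

theorem co_coe {K : Type*} [CommRing K] (T : K[X]) (n : ℤ) :
    co (T : PowerSeries K) n = 0 ∨ ∃ i, co (T : PowerSeries K) n = T.coeff i := by
  unfold co
  split_ifs
  · exact Or.inr ⟨_, coeff_coe _ _⟩
  · exact Or.inl rfl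

theorem co_zero_one {T : ℤ[X]} (h : ∀ i, T.coeff i = 0 ∨ T.coeff i = 1) (n : ℤ) :
    co (T : PowerSeries ℤ) n = 0 ∨ co (T : PowerSeries ℤ) n = 1 := by
  rcases co_coe T n with c | ⟨i, c⟩
  · exact Or.inl c
  · exact c ▸ h i

theorem co_map (T : ℤ[X]) (n : ℤ) :
    co ((T.map (Int.castRingHom ℝ) : ℝ[X]) : PowerSeries ℝ) n = co (T : PowerSeries ℤ) n := by
  unfold co
  split_ifs <;> simp

theorem mirror_tri (z : ℂ) {k k' : ℕ} (hk : 0 < k) (hk' : 0 < k') :
    (1 + C z * X ^ k + X ^ (k + k') : ℂ[X]).mirror = 1 + C z * X ^ k' + X ^ (k + k') := by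
  have h0 : (1 + C z * X ^ k + X ^ (k + k') : ℂ[X]).natTrailingDegree = 0 :=
    natTrailingDegree_eq_zero.2 (Or.inr (by
      simp [hk.ne, coeff_X_pow, show 0 ≠ k + k' by omega]))
  rw [mirror, h0, pow_zero, mul_one, reverse, (monic_tri z (by omega : k < k + k')).2, reflect_add,
    reflect_add, reflect_C_mul_X_pow, reflect_one, reflect_monomial, revAt_le (by omega),
    revAt_le le_rfl, tsub_self, pow_zero, add_tsub_cancel_left]
  ring

theorem no_frac_lt {a : ℝ} {k k' : ℕ} {Q : ℝ[X]} (hk : 0 < k) (hkk : k < k') (a0 : 0 < a)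
    (a1 : a < 1) (hQ : Q.Monic) (hq : ∀ i, 0 ≤ Q.coeff i) (h0 : Q.coeff 0 = 1)
    (hR : ∀ i, ((1 + C a * X ^ k + X ^ (k + k')) * Q).coeff i = 0 ∨
      ((1 + C a * X ^ k + X ^ (k + k')) * Q).coeff i = 1) : False := by
  have hkn : k < k + k' := by omega
  have hP := (monic_tri a hkn).1
  have ia : IsIntegral ℤ a := by
    simpa [coeff_one, hk.ne', show k' ≠ 0 by omega] using isIntegral_coeff hP hQ hR k
  obtain ⟨R, hR1⟩ := (mem_lifts _).1 ((lifts_iff_coeff_lifts (f := Int.castRingHom ℝ)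
    ((1 + C a * X ^ k + X ^ (k + k')) * Q)).2 fun n => by
      rcases hR n with h | h <;> rw [h]
      exacts [⟨0, by simp⟩, ⟨1, by simp⟩])
  have R01 : ∀ i, R.coeff i = 0 ∨ R.coeff i = 1 := fun i => by
    have := hR i
    rw [← hR1, coeff_map] at this
    simpa using this
  have R0 : R ≠ 0 := fun h => (hP.mul hQ).ne_zero (by rw [← hR1, h, Polynomial.map_zero])
  obtain ⟨G, hG⟩ : ∃ G : PowerSeries ℤ, (1 + PowerSeries.X ^ (k + k')) * G = 1 :=
    ⟨_, PowerSeries.mul_invOfUnit _ 1 (by simp [hk.ne'])⟩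
  have hG' : ((1 + X ^ (k + k') : ℤ[X]) : PowerSeries ℤ) * G = 1 := by simpa using hG
  have pen : ∀ {K : Type} [CommRing K] (z : K) (j : ℕ),
      (1 + X ^ (k + k') : ℤ[X]).map (Int.castRingHom K) +
        C z * (X ^ j : ℤ[X]).map (Int.castRingHom K) = 1 + C z * X ^ j + X ^ (k + k') := by
    intro K _ z j
    simp only [Polynomial.map_add, Polynomial.map_one, Polynomial.map_pow, map_X]
    ring
  have mH : (1 + X ^ (k + k') : ℤ[X]).Monic ∧ (1 + X ^ (k + k') : ℤ[X]).natDegree = k + k' := by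
    simpa using monic_tri (0 : ℤ) hkn
  obtain ⟨f, R', s, ha, hf, h01, E⟩ := exists_flip (H := 1 + X ^ (k + k')) (U := X ^ k)
    (H' := 1 + X ^ (k + k')) (U' := X ^ k') mH.1
    (by rw [degree_X_pow, degree_eq_natDegree mH.1.ne_zero, mH.2]; exact_mod_cast hkn) ia R01 R0
    (by rw [pen, hR1]; exact dvd_mul_right _ _)
    (fun z w hne => by
      rw [pen, pen]
      refine ⟨1 + C (w - z)⁻¹ * (C z + X ^ k'), -(C (w - z)⁻¹ * (C z + X ^ k')), ?_⟩
      have : C (w - z)⁻¹ * (C w - C z) = (1 : ℂ[X]) := by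
        rw [← map_sub, ← map_mul, inv_mul_cancel₀ (sub_ne_zero.2 hne.symm), map_one]
      linear_combination (-(C z + X ^ k') * X ^ k) * this)
    (fun z => by rw [pen, pen, mirror_tri z hk (by omega)]) hG' hG'
  replace E : (R' : PowerSeries ℤ) * aeval (PowerSeries.X ^ k * G) f =
      (R : PowerSeries ℤ) * aeval (PowerSeries.X ^ k' * G) f := by
    refine mul_left_cancel₀ (pow_ne_zero s.card (left_ne_zero_of_mul_eq_one hG')) ?_
    simp only [coe_pow, coe_X] at E
    linear_combination E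
  have f0 : f.coeff 0 = 1 := by
    have := congrArg (eval 0) hf
    rw [eval_multiset_prod, ← coeff_zero_eq_eval_zero, coeff_map] at this
    simpa using this
  have f1 : f ≠ 1 := by
    rintro rfl
    have := congrArg (eval (-(a : ℂ)⁻¹)) hf
    rw [eval_multiset_prod, Multiset.map_map, Multiset.prod_eq_zero (Multiset.mem_map.2
      ⟨(a : ℂ), ha, by simp [a0.ne']⟩)] at this
    simp at this
  have k0 : (0 : ℤ) < k := by exact_mod_cast hk
  have k1 : (k : ℤ) < k' := by exact_mod_cast hkk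
  have n1 : ∀ {K : Type} [CommRing K] (T : PowerSeries K) (u v : ℤ), v < 0 → u ≤ -v →
      co T (k * u + k' * v) = 0 := fun T u v c d => co_neg _ (by nlinarith)
  have n2 : ∀ {K : Type} [CommRing K] (T : PowerSeries K) (u v : ℤ), u < 0 → v ≤ 0 →
      co T (k * u + k' * v) = 0 := fun T u v c d => co_neg _ (by nlinarith)
  have D : Data a (fun u v => co (Q : PowerSeries ℝ) (k * u + k' * v))
      fun u v => co (R : PowerSeries ℤ) (k * u + k' * v) := by
    refine ⟨a0, a1, fun u v => ?_, fun u v => ?_, fun u v => co_zero_one R01 _, n1 _, n2 _, ?_⟩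
    · rcases co_coe Q (k * u + k' * v) with c | ⟨i, c⟩ <;> rw [c]
      exact hq i
    · rw [← co_map, hR1, show (((1 + C a * X ^ k + X ^ (k + k')) * Q : ℝ[X]) : PowerSeries ℝ) =
        (Q : PowerSeries ℝ) + PowerSeries.C a * (PowerSeries.X ^ k * (Q : PowerSeries ℝ)) +
          PowerSeries.X ^ (k + k') * (Q : PowerSeries ℝ) by
          push_cast; ring, co_add, co_add, co_C_mul, co_X_pow_mul, co_X_pow_mul]
      congr 2
      · congr 2
        ring
      · push_cast
        ring
    · simpa [co] using h0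
  have Z : ∀ w < (0 : ℤ), co (R' : PowerSeries ℤ) (k * w + k') = 0 :=
    row_zero hk hG f0 E fun w hw => by simpa using D.rrow w hw.le
  have c1 : f.coeff 1 = 0 ∨ f.coeff 1 = 1 := by
    have m0 := master hk hkk hG f0 one_pos (by omega) E Z (u := 0) (v := 0) (by omega) (by omega)
    have m1 := master hk hkk hG f0 one_pos (by omega) E Z (u := 1) (v := 0) (by omega) (by omega)
    have r0 := D.r00
    have r1 := D.one (Or.inr (Or.inr D.y10))
    push_cast at m0 m1
    rw [n2 _ (-1) 0 (by omega) le_rfl, n2 _ (-2) 0 (by omega) le_rfl,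
      n1 _ 0 (-1) (by omega) (by omega), n1 _ 0 (-2) (by omega) (by omega), r0] at m0
    rw [co_G_pow hG _ _ (by push_cast; linarith), n2 _ (-1) 0 (by omega) le_rfl,
      n1 _ 1 (-1) (by omega) (by omega), n1 _ 1 (-2) (by omega) (by omega), r1] at m1
    simp only [mul_zero, add_zero] at m0 m1
    rw [m0] at m1
    have := co_zero_one h01 (k * 1)
    omega
  rcases c1 with c1 | c1
  · obtain ⟨J, J2, hJ, lo⟩ := exists_first f0 c1 f1
    exact D.caseA (fun u v => co_zero_one h01 _) (by exact_mod_cast J2) hJ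
      (eqs hk hkk hG f0 J2 lo E Z)
  · have g0 : ((1 - X) * f).coeff 0 = 1 := by simp [f0]
    obtain ⟨J, J2, hJ, lo⟩ := exists_first g0 (by simp [sub_mul, coeff_X_mul, f0, c1])
      fun h => by simpa using congrArg (eval 1) h
    have s1 : ∀ (T : PowerSeries ℤ) (j : ℕ) (n : ℤ),
        co (T * (1 + PowerSeries.X ^ (k + k') - PowerSeries.X ^ j)) n =
          co T n + co T (n - (k + k')) - co T (n - j) := fun T j n => by
      rw [show T * (1 + PowerSeries.X ^ (k + k') - PowerSeries.X ^ j) =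
        T + PowerSeries.X ^ (k + k') * T - PowerSeries.X ^ j * T by ring, co_sub, co_add,
        co_X_pow_mul, co_X_pow_mul, Nat.cast_add]
    have := eqs hk hkk hG g0 J2 lo
      (S := (R : PowerSeries ℤ) * (1 + PowerSeries.X ^ (k + k') - PowerSeries.X ^ k))
      (S' := (R' : PowerSeries ℤ) * (1 + PowerSeries.X ^ (k + k') - PowerSeries.X ^ k')) (by
        simp only [map_mul, map_sub, map_one, aeval_X]
        linear_combination (1 + PowerSeries.X ^ (k + k')) * (1 - PowerSeries.X ^ k * G) *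
          (1 - PowerSeries.X ^ k' * G) * E + (PowerSeries.X ^ k' * (R' : PowerSeries ℤ) *
          (1 - PowerSeries.X ^ k * G) * aeval (PowerSeries.X ^ k * G) f -
          PowerSeries.X ^ k * (R : PowerSeries ℤ) *
          (1 - PowerSeries.X ^ k' * G) * aeval (PowerSeries.X ^ k' * G) f) * hG)
      (fun w hw => by
        rw [s1, Z w hw, co_neg _ (by nlinarith), co_neg _ (by nlinarith)]
        simp)
    simp only [s1] at this
    refine D.caseB (J := J) (e' := ((1 - X) * f).coeff (J + 1))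
      (fun u v => co_zero_one h01 (k * u + k' * v)) (by exact_mod_cast J2) hJ (n1 _) (n2 _) ?_
    simp only [show ∀ u v : ℤ, k * (u - 1) + k' * (v - 1) = k * u + k' * v - (k + k') from
      fun u v => by ring, show ∀ u v : ℤ, k * (u - 1) + k' * v = k * u + k' * v - k from
      fun u v => by ring, show ∀ u v : ℤ, k * u + k' * (v - 1) = k * u + k' * v - k' from
      fun u v => by ring]
    exact this

end Pool.Agent.P.MP_9bb6b5_al
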