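import Pool.Agent.P.MP_9bb6b5_al.ThreeTerms

/-!
If the coefficient string of `P * Q` reads the same from both ends up to depth `J`, then so do
the strings of `P` and `Q`, and they are 0,1 there.
-/

set_option autoImplicit false

namespace Pool.Agent.P.MP_9bb6b5_al

open Polynomial Finset

theorem sym_split (A B : ℝ[X]) (a0 : A.coeff 0 = 1) (b0 : B.coeff 0 = 1) {j : ℕ} (hj : 0 < j) :
    (A * B).coeff j = A.coeff j + B.coeff j +
      ∑ x ∈ ((antidiagonal j).erase (j, 0)).erase (0, j), A.coeff x.1 * B.coeff x.2 := by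
  rw [coeff_mul, ← add_sum_erase _ _ (a := (j, 0)) (by simp),
    ← add_sum_erase _ _ (a := (0, j)) (by simp; omega), ← add_assoc]
  simp only [a0, b0, mul_one, one_mul]

theorem sym_core {A B A' B' : ℝ[X]} {J : ℕ} (a0 : A.coeff 0 = 1) (b0 : B.coeff 0 = 1)
    (a0' : A'.coeff 0 = 1) (b0' : B'.coeff 0 = 1) (ha : ∀ i, 0 ≤ A.coeff i)
    (hb : ∀ i, 0 ≤ B.coeff i) (ha' : ∀ i, 0 ≤ A'.coeff i) (hb' : ∀ i, 0 ≤ B'.coeff i)
    (hR : ∀ i, (A * B).coeff i = 0 ∨ (A * B).coeff i = 1)
    (hs : ∀ j ≤ J, (A * B).coeff j = (A' * B').coeff j)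
    (p1 : ∀ j, 0 < j → A'.coeff j * B.coeff j = 0)
    (p2 : ∀ j, 0 < j → A.coeff j * B'.coeff j = 0) :
    ∀ j ≤ J, A'.coeff j = A.coeff j ∧ B'.coeff j = B.coeff j ∧
      (A.coeff j = 0 ∨ A.coeff j = 1) ∧ (B.coeff j = 0 ∨ B.coeff j = 1) := by
  have mem : ∀ x : ℝ, x = 0 ∨ x = 1 → x ∈ (⊥ : Subring ℝ) := by
    rintro x (rfl | rfl)
    exacts [zero_mem _, one_mem _]
  intro j
  induction j using Nat.strong_induction_on with
  | _ j ih =>
  intro hj
  rcases j.eq_zero_or_pos with rfl | h0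
  · simp [a0, b0, a0', b0']
  have lt : ∀ x ∈ ((antidiagonal j).erase (j, 0)).erase (0, j), x.1 < j ∧ x.2 < j := by
    intro x hx
    simp only [mem_erase, HasAntidiagonal.mem_antidiagonal, ne_eq, Prod.ext_iff] at hx
    omega
  have e1 := sym_split A B a0 b0 h0
  have e2 := sym_split A' B' a0' b0' h0
  rw [sum_congr rfl (g := fun x => A.coeff x.1 * B.coeff x.2) fun x hx => by
    rw [(ih _ (lt x hx).1 (by have := lt x hx; omega)).1,
      (ih _ (lt x hx).2 (by have := lt x hx; omega)).2.1], ← hs j hj] at e2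
  have hm : ∑ x ∈ ((antidiagonal j).erase (j, 0)).erase (0, j), A.coeff x.1 * B.coeff x.2 ∈
      (⊥ : Subring ℝ) := sum_mem fun x hx =>
    mul_mem (mem _ (ih _ (lt x hx).1 (by have := lt x hx; omega)).2.2.1)
      (mem _ (ih _ (lt x hx).2 (by have := lt x hx; omega)).2.2.2)
  have hn : 0 ≤ ∑ x ∈ ((antidiagonal j).erase (j, 0)).erase (0, j), A.coeff x.1 * B.coeff x.2 :=
    sum_nonneg fun x _ => mul_nonneg (ha _) (hb _)
  generalize ∑ x ∈ ((antidiagonal j).erase (j, 0)).erase (0, j), A.coeff x.1 * B.coeff x.2 = s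
    at e1 e2 hm hn
  obtain ⟨z, rfl⟩ := Subring.mem_bot.1 hm
  have q1 := p1 j h0
  have q2 := p2 j h0
  have u1 := ha j
  have u2 := hb j
  have u3 := ha' j
  have u4 := hb' j
  have hz : A.coeff j + B.coeff j = 0 ∨ A.coeff j + B.coeff j = 1 := by
    have z0 : 0 ≤ z := by exact_mod_cast hn
    have z1 : z ≤ 1 := by
      have : (z : ℝ) ≤ 1 := by rcases hR j with h | h <;> linarith
      exact_mod_cast this
    interval_cases z <;> rcases hR j with h | h <;> simp at e1 <;>
      first | (left; linarith) | (right; linarith)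
  rcases hz with hz | hz
  · have : A.coeff j = 0 := by linarith
    have : B.coeff j = 0 := by linarith
    exact ⟨by linarith, by linarith, by tauto, by tauto⟩
  rcases mul_eq_zero.1 q1 with c | c
  · have d : B'.coeff j = 1 := by linarith
    rw [d, mul_one] at q2
    exact ⟨by linarith, by linarith, Or.inl q2, Or.inr (by linarith)⟩
  · have d : A.coeff j = 1 := by linarith
    rw [d, one_mul] at q2
    exact ⟨by linarith, by linarith, Or.inr d, Or.inl c⟩

theorem sym_pure {P Q : ℝ[X]} (hP : P.Monic) (hQ : Q.Monic) (hp : ∀ i, 0 ≤ P.coeff i)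
    (hq : ∀ i, 0 ≤ Q.coeff i) (hR : ∀ i, (P * Q).coeff i = 0 ∨ (P * Q).coeff i = 1) {j : ℕ}
    (hj : 0 < j) : P.reverse.coeff j * Q.coeff (j + Q.natTrailingDegree) = 0 := by
  rw [coeff_reverse]
  rcases le_or_gt j P.natDegree with c | c
  · rw [revAt_le c]
    have h := coeff_mul_ge_two hp hq (i := P.natDegree) (j := Q.natTrailingDegree)
      (i' := P.natDegree - j) (j' := j + Q.natTrailingDegree) (by omega) (by omega)
    rw [hP.coeff_natDegree, trailing_eq_one hQ hP hq hp (by rwa [mul_comm])] at h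
    refine le_antisymm ?_ (mul_nonneg (hp _) (hq _))
    rcases hR (P.natDegree + Q.natTrailingDegree) with e | e <;> linarith [mul_nonneg (hp (P.natDegree - j)) (hq (j + Q.natTrailingDegree))]
  · rw [revAt_eq_self_of_lt c, coeff_eq_zero_of_natDegree_lt c, zero_mul]

end Pool.Agent.P.MP_9bb6b5_al
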