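import Pool.Agent.P.MP_9bb6b5_al.NoFrac

/-!
All trinomials `1 + a X ^ k + X ^ n`.
-/

set_option autoImplicit false

namespace Pool.Agent.P.MP_9bb6b5_al

open Polynomial Finset

theorem nonneg_tri' {a : ℝ} (ha : 0 ≤ a) (k n i : ℕ) :
    0 ≤ (1 + C a * X ^ k + X ^ n : ℝ[X]).coeff i := by
  simp only [coeff_add, coeff_C_mul, coeff_X_pow, coeff_one]
  positivity

theorem reverse_tri' (a : ℝ) {k n : ℕ} (hkn : k < n) :
    (1 + C a * X ^ k + X ^ n : ℝ[X]).reverse = 1 + C a * X ^ (n - k) + X ^ n := by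
  rw [reverse, (monic_tri a hkn).2, reflect_add, reflect_add, reflect_C_mul_X_pow, reflect_one,
    reflect_monomial, revAt_le hkn.le, revAt_le le_rfl, tsub_self, pow_zero]
  ring

theorem rev' {a : ℝ} {k n : ℕ} {Q : ℝ[X]} (hkn : k < n) (ha : 0 ≤ a) (hQ : Q.Monic)
    (hq : ∀ i, 0 ≤ Q.coeff i) (hR : ∀ i, ((1 + C a * X ^ k + X ^ n) * Q).coeff i = 0 ∨
      ((1 + C a * X ^ k + X ^ n) * Q).coeff i = 1) :
    Q.reverse.Monic ∧ (∀ i, 0 ≤ Q.reverse.coeff i) ∧ Q.reverse.coeff 0 = 1 ∧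
      ∀ i, ((1 + C a * X ^ (n - k) + X ^ n) * Q.reverse).coeff i = 0 ∨
        ((1 + C a * X ^ (n - k) + X ^ n) * Q.reverse).coeff i = 1 := by
  refine ⟨?_, fun i => by rw [coeff_reverse]; exact hq _, by rw [coeff_zero_reverse, hQ],
    fun i => ?_⟩
  · rw [Monic, reverse_leadingCoeff]
    exact trailing_eq_one hQ (monic_tri a hkn).1 hq (nonneg_tri' ha k n) (by rwa [mul_comm])
  · rw [← reverse_tri' a hkn, ← reverse_mul_of_domain, coeff_reverse]
    exact hR _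

theorem no_frac_le {a : ℝ} {k n : ℕ} {Q : ℝ[X]} (hk : 0 < k) (hkn : 2 * k ≤ n) (a0 : 0 < a)
    (a1 : a < 1) (hQ : Q.Monic) (hq : ∀ i, 0 ≤ Q.coeff i) (h0 : Q.coeff 0 = 1)
    (hR : ∀ i, ((1 + C a * X ^ k + X ^ n) * Q).coeff i = 0 ∨
      ((1 + C a * X ^ k + X ^ n) * Q).coeff i = 1) : False := by
  obtain ⟨k', rfl⟩ := Nat.exists_eq_add_of_le (show k ≤ n by omega)
  rcases (show k ≤ k' by omega).lt_or_eq with c | rfl
  · exact no_frac_lt hk c a0 a1 hQ hq h0 hR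
  have e1 := hR k
  have e2 := hR (k + k)
  rw [coeff_tri_mul, if_pos le_rfl, if_neg (by omega), tsub_self, h0] at e1
  rw [coeff_tri_mul, if_pos (by omega), if_pos le_rfl, tsub_self, h0, add_tsub_cancel_right] at e2
  have h1 : 0 < Q.coeff k := by rcases e1 with e | e <;> linarith [hq k]
  rcases e2 with e | e <;> linarith [hq (k + k), mul_pos a0 h1]

theorem tri_zero_one {a : ℝ} {k n : ℕ} {Q : ℝ[X]} (hk : 0 < k) (hkn : k < n) (ha : 0 ≤ a)
    (hQ : Q.Monic) (hq : ∀ i, 0 ≤ Q.coeff i)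
    (hR : ∀ i, ((1 + C a * X ^ k + X ^ n) * Q).coeff i = 0 ∨
      ((1 + C a * X ^ k + X ^ n) * Q).coeff i = 1) : a = 0 ∨ a = 1 := by
  by_contra hc
  push Not at hc
  have a0 : 0 < a := lt_of_le_of_ne ha hc.1.symm
  have a1 : a < 1 := lt_of_le_of_ne (by
    simpa [coeff_one, hk.ne', hkn.ne] using coeff_le_one hQ (nonneg_tri' ha k n) hq hR k) hc.2
  obtain ⟨m1, m2, m3, m4⟩ := rev' hkn ha hQ hq hR
  rcases le_total k (n - k) with c | c
  · obtain ⟨l1, l2, l3, l4⟩ := rev' (by omega : n - k < n) ha m1 m2 m4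
    rw [Nat.sub_sub_self hkn.le] at l4
    exact no_frac_le hk (by omega) a0 a1 l1 l2 l3 l4
  · exact no_frac_le (by omega) (by omega) a0 a1 m1 m2 m3 m4

theorem exists_int_lift {T : ℝ[X]} (h : ∀ i, T.coeff i = 0 ∨ T.coeff i = 1) :
    ∃ T' : ℤ[X], T'.map (Int.castRingHom ℝ) = T :=
  (mem_lifts _).1 ((lifts_iff_coeff_lifts (f := Int.castRingHom ℝ) T).2 fun n => by
    rcases h n with h | h <;> rw [h]
    exacts [⟨0, by simp⟩, ⟨1, by simp⟩])

theorem zero_one_right {P Q : ℝ[X]} (hP : P.Monic) (hq : ∀ i, 0 ≤ Q.coeff i)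
    (hR : ∀ i, (P * Q).coeff i = 0 ∨ (P * Q).coeff i = 1)
    (h : ∀ i, P.coeff i = 0 ∨ P.coeff i = 1) (i : ℕ) : Q.coeff i = 0 ∨ Q.coeff i = 1 := by
  have inj : Function.Injective (Int.castRingHom ℝ) := RingHom.injective_int _
  have h1 := coeff_le_one hP hq (fun i => by rcases h i with e | e <;> simp [e])
    (by rwa [mul_comm]) i
  have h0 := hq i
  obtain ⟨P', rfl⟩ := exists_int_lift h
  obtain ⟨R', hR'⟩ := exists_int_lift hR
  obtain ⟨W, rfl⟩ : P' ∣ R' := by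
    rw [← map_dvd_map _ inj (monic_of_injective inj hP), hR']
    exact dvd_mul_right _ _
  rw [Polynomial.map_mul] at hR'
  rw [← mul_left_cancel₀ hP.ne_zero hR', coeff_map, eq_intCast] at h0 h1 ⊢
  have k0 : 0 ≤ W.coeff i := by exact_mod_cast h0
  have k1 : W.coeff i ≤ 1 := by exact_mod_cast h1
  interval_cases W.coeff i <;> simp

end Pool.Agent.P.MP_9bb6b5_al
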