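import Pool.Agent.P.MP_9bb6b5_al.Basic

/-!
Trinomials `1 + z X ^ k + X ^ n`: power sums of the roots and a lower bound for the Mahler measure.
-/

set_option autoImplicit false

namespace Pool.Agent.P.MP_9bb6b5_al

open Polynomial Finset

theorem coeff_tri_mul {K : Type*} [CommRing K] (a : K) (k n : ℕ) (Q : K[X]) (s : ℕ) :
    ((1 + C a * X ^ k + X ^ n) * Q).coeff s = Q.coeff s +
      a * (if k ≤ s then Q.coeff (s - k) else 0) + if n ≤ s then Q.coeff (s - n) else 0 := by
  rw [add_mul, add_mul, one_mul, mul_assoc, coeff_add, coeff_add, coeff_C_mul, coeff_X_pow_mul',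
    coeff_X_pow_mul']

theorem monic_tri {K : Type*} [CommRing K] [Nontrivial K] (a : K) {k n : ℕ} (h : k < n) :
    (1 + C a * X ^ k + X ^ n : K[X]).Monic ∧ (1 + C a * X ^ k + X ^ n : K[X]).natDegree = n := by
  have h1 : (1 + C a * X ^ k : K[X]).degree < (X ^ n : K[X]).degree := by
    rw [degree_X_pow]
    refine lt_of_le_of_lt (b := (k : WithBot ℕ)) ?_ (by exact_mod_cast h)
    compute_degree!
  exact ⟨(monic_X_pow n).add_of_right h1, by
    rw [natDegree_add_eq_right_of_degree_lt h1, natDegree_X_pow]⟩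

theorem newton (s : Multiset ℂ) (N : ℕ) : (X : ℂ[X]) ^ (N + 1) ∣
    X * derivative (s.map fun u => 1 - C u * X).prod + (s.map fun u => 1 - C u * X).prod *
      ∑ m ∈ range N, C (s.map fun u => u ^ (m + 1)).sum * X ^ (m + 1) := by
  induction s using Multiset.induction_on with
  | empty => simp
  | cons u s ih =>
    have h : (1 - C u * X) * ∑ m ∈ range N, C (u ^ (m + 1)) * X ^ (m + 1) =
        C u * X - C (u ^ (N + 1)) * (X : ℂ[X]) ^ (N + 1) := by
      clear ih
      induction N with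
      | zero => simp
      | succ N ih' =>
        rw [sum_range_succ, mul_add, ih']
        simp only [map_pow]
        ring
    simp only [Multiset.map_cons, Multiset.prod_cons, Multiset.sum_cons, map_add, add_mul,
      sum_add_distrib, derivative_mul, derivative_sub, derivative_one, derivative_C, derivative_X]
    obtain ⟨T, hT⟩ := ih
    refine ⟨(1 - C u * X) * T - (s.map fun u => 1 - C u * X).prod * C (u ^ (N + 1)), ?_⟩
    linear_combination (1 - C u * X) * hT + (s.map fun u => 1 - C u * X).prod * h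

theorem psum_eq {s : Multiset ℂ} {k m : ℕ} (hk : 0 < k) {z c : ℂ} {n : ℕ} (hm : k ≤ m) (hn : k < n)
    (h : (s.map fun u => 1 - C u * X).prod = 1 + C z * X ^ m + X ^ n)
    (hc : c = if m = k then z else 0) : (s.map fun u => u ^ k).sum = -(k * c) := by
  obtain ⟨k, rfl⟩ := Nat.exists_eq_succ_of_ne_zero hk.ne'
  have h1 := X_pow_dvd_iff.1 (newton s (k + 1)) (k + 1) (by omega)
  rw [h, coeff_add, coeff_X_mul, coeff_derivative, coeff_tri_mul, if_neg (by omega : ¬ n ≤ k + 1),
    finsetSum_coeff, finsetSum_coeff] at h1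
  simp only [coeff_add, coeff_C_mul, coeff_X_pow, coeff_one, Nat.add_right_cancel_iff,
    mul_ite, mul_one, mul_zero] at h1
  rw [sum_ite_eq, sum_eq_zero fun i _ => if_neg (by omega : ¬ k + 1 - m = i + 1),
    if_neg k.succ_ne_zero, if_neg hn.ne, if_pos (self_mem_range_succ k)] at h1
  simp only [mul_zero, ite_self, eq_comm (a := k + 1) (b := m), ← hc] at h1
  push_cast
  linear_combination h1

theorem abs_inv_sub_le {t : ℝ} (h1 : 2 / 3 ≤ t) (h2 : t ≤ 3 / 2) :
    |t⁻¹ - t| ≤ 25 / 12 * |Real.log t| := by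
  have key : ∀ t : ℝ, 1 ≤ t → t ≤ 3 / 2 → t - t⁻¹ ≤ 25 / 12 * Real.log t := by
    intro t h1 h2
    have := Real.le_log_one_add_of_nonneg (x := t - 1) (by linarith)
    rw [add_sub_cancel, div_le_iff₀ (by linarith)] at this
    have h3 := Real.log_nonneg h1
    have h4 : t - t⁻¹ = (t - 1) * (t + 1) / t := by field_simp; ring
    rw [h4, div_le_iff₀ (by linarith)]
    nlinarith [mul_nonneg h3 (mul_nonneg (sub_nonneg.2 h2) (show 0 ≤ 6 * t - 4 by linarith)),
      mul_le_mul_of_nonneg_right this (show 0 ≤ t + 1 by linarith)]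
  have t0 : 0 < t := by linarith
  rcases le_total 1 t with h | h
  · rw [abs_sub_comm, abs_of_nonneg (sub_nonneg.2 ((inv_le_one_of_one_le₀ h).trans h)),
      abs_of_nonneg (Real.log_nonneg h)]
    exact key t h h2
  · have h3 : 1 ≤ t⁻¹ := one_le_inv₀ t0 |>.2 h
    have := key t⁻¹ h3 (by rw [inv_le_comm₀ t0 (by norm_num)]; linarith)
    rw [inv_inv, Real.log_inv] at this
    rwa [abs_of_nonneg (by linarith), abs_of_nonpos (Real.log_nonpos t0.le h)]

theorem root_bound {z ρ : ℂ} {k n : ℕ} (hz : ‖z‖ ≤ 11 / 10) (hn : 4 * k ≤ n)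
    (h : 1 + z * ρ ^ k + ρ ^ n = 0) : 2 / 3 ≤ ‖ρ‖ ^ k ∧ ‖ρ‖ ^ k ≤ 3 / 2 := by
  have h0 : 0 ≤ ‖ρ‖ ^ k := by positivity
  have hzt : ‖z * ρ ^ k‖ ≤ 11 / 10 * ‖ρ‖ ^ k := by
    rw [norm_mul, norm_pow]; gcongr
  constructor
  · by_contra hc
    push Not at hc
    have h1 : ‖ρ‖ ≤ 1 := by
      by_contra h2
      linarith [one_le_pow₀ (n := k) (not_le.1 h2).le]
    have h2 : ‖ρ‖ ^ n ≤ (2 / 3) ^ 4 :=
      (pow_le_pow_of_le_one (norm_nonneg _) h1 hn).trans (by rw [pow_mul']; gcongr)
    have h3 := norm_add_le (z * ρ ^ k) (ρ ^ n)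
    rw [show z * ρ ^ k + ρ ^ n = -1 by linear_combination h, norm_neg, norm_one, norm_pow] at h3
    linarith
  · by_contra hc
    push Not at hc
    have h1 : 1 ≤ ‖ρ‖ := by
      by_contra h2
      linarith [pow_le_one₀ (n := k) (norm_nonneg ρ) (not_le.1 h2).le]
    have h2 : (‖ρ‖ ^ k) ^ 4 ≤ ‖ρ‖ ^ n := by rw [← pow_mul']; exact pow_le_pow_right₀ h1 hn
    have h3 := norm_add_le 1 (z * ρ ^ k)
    rw [show 1 + z * ρ ^ k = -ρ ^ n by linear_combination h, norm_neg, norm_one, norm_pow] at h3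
    have h4 : (3 / 2) ^ 3 ≤ (‖ρ‖ ^ k) ^ 3 := by gcongr
    nlinarith

theorem log_mahler_tri {z : ℂ} {k n : ℕ} (hz : ‖z‖ ≤ 11 / 10) (hk : 0 < k) (hn : 4 * k ≤ n)
    {r : ℝ} (hr : 0 < r) (hr1 : r ≤ 1) : 6 / 25 * ‖z‖ + n * Real.log r ≤
      Real.log ((1 + C z * X ^ k + X ^ n).comp (C (r : ℂ) * X)).mahlerMeasure := by
  obtain ⟨hm, hd⟩ := monic_tri z (show k < n by omega)
  set f : ℂ[X] := 1 + C z * X ^ k + X ^ n with hf
  have e := (IsAlgClosed.splits f).eq_prod_roots_of_monic hm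
  have card : f.roots.card = n := by rw [← (IsAlgClosed.splits f).natDegree_eq_card_roots, hd]
  have ev : ∀ x, (f.roots.map fun ρ => x - ρ).prod = 1 + z * x ^ k + x ^ n := fun x => by
    have := congrArg (eval x) e
    rw [eval_multiset_prod, Multiset.map_map] at this
    simpa [hf] using this.symm
  have rt : ∀ ρ ∈ f.roots, 1 + z * ρ ^ k + ρ ^ n = 0 := fun ρ h => by
    simpa [hf] using (mem_roots hm.ne_zero).1 h
  have rb := fun ρ h => root_bound hz hn (rt ρ h)
  have r0 : ∀ ρ ∈ f.roots, ρ ≠ 0 := fun ρ h h0 => by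
    have := (rb ρ h).1
    rw [h0, norm_zero, zero_pow hk.ne'] at this
    norm_num at this
  have p1 : (f.roots.map fun ρ => -ρ).prod = 1 := by
    simpa [hk.ne', show n ≠ 0 by omega] using ev 0
  have e1 : ((f.roots.map (·⁻¹)).map fun u => 1 - C u * X).prod = f := by
    refine funext fun x => ?_
    rw [eval_multiset_prod, Multiset.map_map, Multiset.map_map,
      show eval x f = 1 + z * x ^ k + x ^ n by simp [hf], ← ev, ← one_mul (Multiset.prod _), ← p1,
      ← Multiset.prod_map_mul]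
    refine congrArg _ (Multiset.map_congr rfl fun ρ h => ?_)
    have := r0 ρ h
    simp only [Function.comp_apply, eval_sub, eval_one, eval_mul, eval_C, eval_X]
    field_simp
    ring
  have e2 : (f.roots.map fun u => 1 - C u * X).prod = 1 + C z * X ^ (n - k) + X ^ n := by
    refine eq_of_infinite_eval_eq _ _ ((Set.finite_singleton (0 : ℂ)).infinite_compl.mono
      fun x hx => ?_)
    have hx : x ≠ 0 := hx
    have h1 : (f.roots.map fun ρ => x * (x⁻¹ - ρ)).prod = x ^ n * (1 + z * x⁻¹ ^ k + x⁻¹ ^ n) := by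
      rw [Multiset.prod_map_mul, ev, Multiset.map_const', Multiset.prod_replicate, card]
    show eval x _ = eval x _
    rw [eval_multiset_prod, Multiset.map_map, Multiset.map_congr rfl
      (g := fun ρ => x * (x⁻¹ - ρ)) fun ρ _ => by simp; field_simp, h1]
    simp only [eval_add, eval_one, eval_mul, eval_C, eval_pow, eval_X]
    rw [pow_sub₀ _ hx (by omega), inv_pow, inv_pow]
    field_simp
    ring
  have s1 := psum_eq hk le_rfl (show k < n by omega) e1 (if_pos rfl).symm
  have s2 := psum_eq hk (show k ≤ n - k by omega) (show k < n by omega) e2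
    (if_neg (by omega)).symm
  have s3 : k * ‖z‖ ≤ (f.roots.map fun ρ => 25 / 12 * (k * |Real.log ‖ρ‖|)).sum := by
    have h1 : (f.roots.map fun ρ => ρ⁻¹ ^ k - starRingEnd ℂ (ρ ^ k)).sum = -(k * z) := by
      rw [Multiset.sum_map_sub, ← s1, Multiset.map_map, ← Function.comp_def (starRingEnd ℂ),
        ← Multiset.map_map, ← map_multiset_sum, s2]
      simp
    have h2 := norm_multiset_sum_le (f.roots.map fun ρ => ρ⁻¹ ^ k - starRingEnd ℂ (ρ ^ k))
    rw [h1, norm_neg, norm_mul, Complex.norm_natCast, Multiset.map_map] at h2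
    refine h2.trans (Multiset.sum_map_le_sum_map _ _ fun ρ h => ?_)
    have h3 := abs_inv_sub_le (rb ρ h).1 (rb ρ h).2
    rw [Real.log_pow, abs_mul, Nat.abs_cast] at h3
    refine le_trans (le_of_eq ?_) h3
    have h4 : ρ ^ k ≠ 0 := pow_ne_zero _ (r0 ρ h)
    have h5 : ‖ρ ^ k‖ ≠ 0 := norm_ne_zero_iff.2 h4
    rw [Function.comp_apply, inv_pow, ← norm_pow,
      show (ρ ^ k)⁻¹ - starRingEnd ℂ (ρ ^ k) = (ρ ^ k)⁻¹ * ((1 - ‖ρ ^ k‖ ^ 2 : ℝ) : ℂ) by
        push_cast; rw [← Complex.mul_conj']; field_simp,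
      show ‖ρ ^ k‖⁻¹ - ‖ρ ^ k‖ = ‖ρ ^ k‖⁻¹ * (1 - ‖ρ ^ k‖ ^ 2) by field_simp, norm_mul, abs_mul,
      norm_inv, Complex.norm_real, Real.norm_eq_abs, abs_inv, abs_norm]
  have s4 : (f.roots.map fun ρ => Real.log ‖ρ‖).sum = 0 := by
    have h1 := congrArg (fun w : ℂ => Real.log ‖w‖) p1
    simp only [norm_one, Real.log_one] at h1
    rw [← h1, ← normHom_apply, map_multiset_prod, Real.log_multiset_prod, Multiset.map_map,
      Multiset.map_map]
    · simp
    · intro x hx
      simp only [Multiset.map_map, Multiset.mem_map] at hx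
      obtain ⟨ρ, h, rfl⟩ := hx
      simpa using r0 ρ h
  have s5 : (f.comp (C (r : ℂ) * X)).mahlerMeasure =
      (f.roots.map fun ρ => max (r / ‖ρ‖) 1).prod := by
    conv_lhs => rw [← e1]
    rw [multiset_prod_comp, prod_mahlerMeasure_eq_mahlerMeasure_prod, Multiset.map_map,
      Multiset.map_map, Multiset.map_map]
    refine congrArg _ (Multiset.map_congr rfl fun ρ h => ?_)
    have h1 : -(ρ⁻¹ * r) ≠ 0 := by simp [r0 ρ h, hr.ne']
    have := mahlerMeasure_C_mul_X_add_C h1 1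
    rw [norm_neg, norm_mul, norm_inv, norm_one, Complex.norm_real, Real.norm_of_nonneg hr.le]
      at this
    rw [div_eq_inv_mul, ← this]
    simp only [Function.comp_apply, sub_comp, one_comp, mul_comp, C_comp, X_comp, map_neg, map_mul,
      map_one]
    congr 1
    ring
  have s6 : (f.roots.map fun ρ => (|Real.log ‖ρ‖| - Real.log ‖ρ‖) / 2 + Real.log r).sum ≤
      (f.roots.map fun ρ => Real.log (max (r / ‖ρ‖) 1)).sum := by
    refine Multiset.sum_map_le_sum_map _ _ fun ρ h => ?_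
    have h1 : 0 < ‖ρ‖ := norm_pos_iff.2 (r0 ρ h)
    rcases abs_cases (Real.log ‖ρ‖) with c | c
    · linarith [Real.log_nonneg (le_max_right (r / ‖ρ‖) 1), Real.log_nonpos hr.le hr1]
    · have := Real.log_le_log (by positivity) (le_max_left (r / ‖ρ‖) 1)
      rw [Real.log_div hr.ne' h1.ne'] at this
      linarith
  rw [s5, Real.log_multiset_prod, Multiset.map_map]
  · refine le_trans ?_ s6
    rw [Multiset.sum_map_add, Multiset.sum_map_div, Multiset.sum_map_sub, s4, Multiset.map_const',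
      Multiset.sum_replicate, card, nsmul_eq_mul]
    rw [Multiset.sum_map_mul_left, Multiset.sum_map_mul_left] at s3
    have : (0 : ℝ) < k := by exact_mod_cast hk
    nlinarith
  · intro x hx
    obtain ⟨ρ, -, rfl⟩ := Multiset.mem_map.1 hx
    exact (lt_of_lt_of_le one_pos (le_max_right _ _)).ne'

end Pool.Agent.P.MP_9bb6b5_al
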